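import Pool.Agent.P.MP_bf7e1e_gt.Defs

namespace Pool.Agent.P.MP_bf7e1e_gt

open Set

variable {X : Type} [TopologicalSpace X]

theorem IsCozero.isOpen {U : Set X} (h : IsCozero U) : IsOpen U := by
  obtain ⟨f, hf, rfl⟩ := h
  exact isOpen_ne_fun hf continuous_const

theorem isCozero_of_isClopen {U : Set X} (h : IsClopen U) : IsCozero U := by
  classical
  refine ⟨U.indicator (fun _ => (1 : ℝ)), h.continuous_indicator continuous_const, ?_⟩
  ext x
  by_cases hx : x ∈ U <;> simp [hx]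

/-- If every finite open cover is refined by a countable clopen cover then `dim ≤ 0`. -/
theorem dimLE_zero_of_clopen
    (h : ∀ A : Set (Set X), A.Finite → (∀ U ∈ A, IsOpen U) → ⋃₀ A = univ →
      ∃ C : ℕ → Set X, (∀ n, IsClopen (C n)) ∧ ⋃ n, C n = univ ∧ ∀ n, ∃ U ∈ A, C n ⊆ U) :
    DimLE X 0 := by
  intro A hA hcoz hcov
  obtain ⟨C, hC, hCcov, hCref⟩ := h A hA (fun U hU => (hcoz U hU).isOpen) hcov
  choose u huA hu using hCref
  have hD : ∀ n, IsClopen (disjointed C n) := by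
    intro n
    rw [disjointed_eq_inter_compl]
    refine (hC n).inter ?_
    have : (⋂ j, ⋂ (_ : j < n), (C j)ᶜ) = ⋂ j ∈ Finset.range n, (C j)ᶜ := by
      ext x; simp
    rw [this]
    exact isClopen_biInter_finset (fun j _ => (hC j).compl)
  have hDcov : ∀ x, ∃ n, x ∈ disjointed C n := by
    intro x
    have : x ∈ ⋃ n, disjointed C n := by rw [iUnion_disjointed, hCcov]; trivial
    exact mem_iUnion.1 this
  have hDdis : ∀ x n m, x ∈ disjointed C n → x ∈ disjointed C m → n = m := by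
    intro x n m hn hm
    by_contra hne
    exact (Set.disjoint_left.1 (disjoint_disjointed C hne)) hn hm
  choose idx hidx using hDcov
  let V : Set X → Set X := fun U => {x | u (idx x) = U}
  have hVopen : ∀ P : Set X → Prop, IsOpen {x | P (u (idx x))} := by
    intro P
    rw [isOpen_iff_forall_mem_open]
    intro x hx
    refine ⟨disjointed C (idx x), ?_, (hD _).isOpen, hidx x⟩
    intro y hy
    have : idx y = idx x := hDdis y _ _ (hidx y) hy
    simpa [this] using hx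
  have hVclopen : ∀ U, IsClopen (V U) := by
    intro U
    refine ⟨⟨?_⟩, hVopen (fun W => W = U)⟩
    exact hVopen (fun W => ¬ W = U)
  refine ⟨V '' A, hA.image _, ?_, ?_, ?_, ?_⟩
  · rintro _ ⟨U, -, rfl⟩
    exact isCozero_of_isClopen (hVclopen U)
  · refine eq_univ_of_forall fun x => ⟨V (u (idx x)), ⟨_, huA _, rfl⟩, rfl⟩
  · rintro _ ⟨U, hU, rfl⟩
    refine ⟨U, hU, fun x hx => ?_⟩
    have hx' : u (idx x) = U := hx
    rw [← hx']
    exact hu _ (disjointed_subset C _ (hidx x))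
  · intro x
    have : {W ∈ V '' A | x ∈ W} ⊆ {V (u (idx x))} := by
      rintro _ ⟨⟨U, -, rfl⟩, hx⟩
      have hx' : u (idx x) = U := hx
      rw [hx']; rfl
    have h2 := Set.ncard_le_ncard this (finite_singleton _)
    rw [Set.ncard_singleton] at h2
    omega

/-- In a space with `dim ≤ 0` the sets `f ≤ 0` and `1 ≤ f` are separated by a clopen set. -/
theorem exists_clopen_of_dimLE_zero (h : DimLE X 0) {f : X → ℝ} (hf : Continuous f) :
    ∃ W : Set X, IsClopen W ∧ (∀ x, f x ≤ 0 → x ∈ W) ∧ ∀ x ∈ W, f x < 1 := by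
  have h1 : IsCozero {x | f x < 1} := by
    refine ⟨fun x => max (1 - f x) 0, by fun_prop, ?_⟩
    ext x
    simp only [mem_setOf_eq, ne_eq, sup_eq_right, not_le]
    constructor <;> intro h <;> linarith
  have h0 : IsCozero {x | 0 < f x} := by
    refine ⟨fun x => max (f x) 0, by fun_prop, ?_⟩
    ext x
    simp only [mem_setOf_eq, ne_eq, sup_eq_right, not_le]
  obtain ⟨B, hBfin, hBcoz, hBcov, hBref, hBord⟩ := h {{x | f x < 1}, {x | 0 < f x}}
    (toFinite _) (by rintro U (rfl | rfl); exacts [h1, h0]) (by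
      refine eq_univ_of_forall fun x => ?_
      by_cases hx : f x < 1
      · exact ⟨_, Or.inl rfl, hx⟩
      · exact ⟨_, Or.inr rfl, by simp only [mem_setOf_eq]; linarith⟩)
  have huniq : ∀ x, ∀ V ∈ B, ∀ V' ∈ B, x ∈ V → x ∈ V' → V = V' := by
    intro x V hV V' hV' hx hx'
    have hfin : {V ∈ B | x ∈ V}.Finite := hBfin.subset (fun _ h => h.1)
    have h2 : {V ∈ B | x ∈ V}.ncard ≤ 1 := by have := hBord x; omega
    exact (Set.ncard_le_one hfin).1 h2 V ⟨hV, hx⟩ V' ⟨hV', hx'⟩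
  have hcov : ∀ x, ∃ V ∈ B, x ∈ V := fun x => by
    have : x ∈ ⋃₀ B := by rw [hBcov]; trivial
    exact this
  refine ⟨⋃₀ {V ∈ B | V ⊆ {x | f x < 1}}, ⟨⟨?_⟩, ?_⟩, ?_, ?_⟩
  · rw [isOpen_iff_forall_mem_open]
    intro x hx
    obtain ⟨V, hV, hxV⟩ := hcov x
    refine ⟨V, ?_, (hBcoz V hV).isOpen, hxV⟩
    rintro y hy ⟨V', ⟨hV', hsub⟩, hyV'⟩
    have := huniq y V hV V' hV' hy hyV'
    subst this
    exact hx ⟨V, ⟨hV, hsub⟩, hxV⟩
  · exact isOpen_sUnion fun V hV => (hBcoz V hV.1).isOpen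
  · intro x hx
    obtain ⟨V, hV, hxV⟩ := hcov x
    obtain ⟨U, hU, hVU⟩ := hBref V hV
    rcases hU with rfl | rfl
    · exact ⟨V, ⟨hV, hVU⟩, hxV⟩
    · have : 0 < f x := hVU hxV
      linarith
  · rintro x ⟨V, ⟨-, hsub⟩, hxV⟩
    exact hsub hxV

theorem DimLE.mono {n m : ℤ} (h : DimLE X n) (hnm : n ≤ m) : DimLE X m := by
  intro A hA hcoz hcov
  obtain ⟨B, h1, h2, h3, h4, h5⟩ := h A hA hcoz hcov
  exact ⟨B, h1, h2, h3, h4, fun x => (h5 x).trans (by omega)⟩

theorem DimLE.nonneg [Nonempty X] {n : ℤ} (h : DimLE X n) : 0 ≤ n := by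
  obtain ⟨B, h1, -, h3, -, h5⟩ := h {univ} (toFinite _)
    (by rintro U rfl; exact isCozero_of_isClopen isClopen_univ) (by simp)
  obtain ⟨x⟩ := ‹Nonempty X›
  have : x ∈ ⋃₀ B := by rw [h3]; trivial
  obtain ⟨V, hV, hxV⟩ := this
  have hpos : 0 < {V ∈ B | x ∈ V}.ncard :=
    (Set.ncard_pos (h1.subset (fun _ h => h.1))).2 ⟨V, hV, hxV⟩
  have := h5 x
  omega

theorem covDim_eq_zero [Nonempty X] (h : DimLE X 0) : covDim X = 0 := by
  apply le_antisymm
  · exact sInf_le ⟨0, by norm_num, h, by simp⟩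
  · refine le_sInf ?_
    rintro _ ⟨n, -, hn, rfl⟩
    have := hn.nonneg
    exact_mod_cast this

theorem one_le_covDim (h : ¬ DimLE X 0) : 1 ≤ covDim X := by
  refine le_sInf ?_
  rintro _ ⟨n, -, hn, rfl⟩
  have : 1 ≤ n := by
    by_contra hlt
    exact h (hn.mono (by omega))
  exact_mod_cast this

end Pool.Agent.P.MP_bf7e1e_gt
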