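import Pool.Agent.P.MP_bf7e1e_gt.Omega

namespace Pool.Agent.P.MP_bf7e1e_gt

open Set Cardinal

theorem exists_injective_choice_aux (P : (𝔠 : Cardinal.{0}).ord.ToType → Set ℝ)
    (hP : ∀ i, 𝔠 ≤ #(P i)) : ∃ p : (𝔠 : Cardinal.{0}).ord.ToType → ℝ,
      Function.Injective p ∧ ∀ i, p i ∈ P i := by
  classical
  let K := (𝔠 : Cardinal.{0}).ord.ToType
  have hwf : WellFounded ((· < ·) : K → K → Prop) := wellFounded_lt
  let step : (k : K) → ((j : K) → j < k → ℝ) → ℝ := fun k prev =>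
    Classical.epsilon (fun x => x ∈ P k ∧ ∀ j (h : j < k), prev j h ≠ x)
  let p : K → ℝ := hwf.fix step
  have hp : ∀ k, p k = step k (fun j _ => p j) := fun k => hwf.fix_eq step k
  have key : ∀ k, p k ∈ P k ∧ ∀ j, j < k → p j ≠ p k := by
    intro k
    have hex : ∃ x, x ∈ P k ∧ ∀ j (_ : j < k), p j ≠ x := by
      by_contra hcon
      push Not at hcon
      have hsub : P k ⊆ p '' (Iio k) := by
        intro x hx
        obtain ⟨j, hj, hjx⟩ := hcon x hx
        exact ⟨j, hj, hjx⟩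
      have h1 : #(P k) ≤ #(Iio k) := (mk_le_mk_of_subset hsub).trans mk_image_le
      have h2 : #(Iio k) < 𝔠 := mk_Iio_toType_ord_lt k
      exact absurd ((hP k).trans h1) (not_le.2 h2)
    have := Classical.epsilon_spec hex
    rw [hp k]
    exact this
  refine ⟨p, fun i j hij => ?_, fun i => (key i).1⟩
  rcases lt_trichotomy i j with h | h | h
  · exact absurd hij ((key j).2 i h)
  · exact h
  · exact absurd hij.symm ((key i).2 j h)

theorem exists_injective_choice {ι : Type} (hι : #ι ≤ 𝔠) (P : ι → Set ℝ)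
    (hP : ∀ i, 𝔠 ≤ #(P i)) : ∃ p : ι → ℝ, Function.Injective p ∧ ∀ i, p i ∈ P i := by
  classical
  have h1 : #ι ≤ #((𝔠 : Cardinal.{0}).ord.ToType) := by rwa [mk_ord_toType]
  obtain ⟨e⟩ := Cardinal.le_def _ _ |>.1 h1
  let P' : (𝔠 : Cardinal.{0}).ord.ToType → Set ℝ := fun k =>
    if h : ∃ i, e i = k then P h.choose else univ
  obtain ⟨p, hp, hp'⟩ := exists_injective_choice_aux P' (by
    intro k
    by_cases h : ∃ i, e i = k
    · simp only [P', dif_pos h]; exact hP _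
    · simp only [P', dif_neg h]; simp [mk_real])
  refine ⟨p ∘ e, hp.comp e.injective, fun i => ?_⟩
  have h : ∃ j, e j = e i := ⟨i, rfl⟩
  have h2 := hp' (e i)
  simp only [P', dif_pos h] at h2
  have h3 : h.choose = i := e.injective h.choose_spec
  rwa [h3] at h2

/-- The reversed initial segment of a branch. -/
def path (β : ℕ → Bool) : ℕ → List Bool
  | 0 => []
  | n + 1 => β n :: path β n

/-- The real number attached to a branch by a labelling of the binary tree. -/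
noncomputable def lim (g : List Bool → ℝ) (β : ℕ → Bool) : ℝ := ⨆ n, g (path β n)

/-- The properties of the family of forbidden sets. -/
structure Forb {Ω : Type} [ConditionallyCompleteLinearOrderBot Ω] (F : Ω → Set ℝ) : Prop where
  anti : Antitone F
  dense : ∀ a, ∀ x y : ℝ, x < y → ∃ t ∈ F a, x < t ∧ t < y
  codense : ∀ x y : ℝ, x < y → ∃ t, t ∉ F ⊥ ∧ x < t ∧ t < y
  empty : ∀ t, ∃ a, t ∉ F a
  noperf : ∀ g : List Bool → ℝ, Function.Injective (lim g) → ∃ β, lim g β ∉ F ⊥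

theorem exists_forb {Ω : Type} [ConditionallyCompleteLinearOrderBot Ω] [IsOm Ω]
    (hΩ : #Ω ≤ 𝔠) : ∃ F : Ω → Set ℝ, Forb F := by
  let G := {g : List Bool → ℝ // Function.Injective (lim g)}
  let J := {q : ℚ × ℚ // q.1 < q.2}
  let ι := G ⊕ (J × Option Ω)
  have hG : #G ≤ 𝔠 := by
    refine (mk_subtype_le _).trans ?_
    simp [mk_real]
  have hJ : #(J × Option Ω) ≤ 𝔠 := by
    have h1 : #J ≤ 𝔠 := mk_le_aleph0.trans aleph0_le_continuum
    have h2 : #(Option Ω) ≤ 𝔠 := by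
      rw [mk_option]
      exact (add_le_add hΩ (one_le_aleph0.trans aleph0_le_continuum)).trans (by simp)
    rw [mk_prod]
    simp only [lift_id]
    exact (mul_le_mul' h1 h2).trans (by simp)
  have hι : #ι ≤ 𝔠 := by
    rw [mk_sum]
    simp only [lift_id]
    exact (add_le_add hG hJ).trans (by simp)
  let P : ι → Set ℝ := fun i => match i with
    | Sum.inl g => range (lim g.1)
    | Sum.inr (q, _) => Ioo (q.1.1 : ℝ) (q.1.2 : ℝ)
  obtain ⟨p, hp, hpP⟩ := exists_injective_choice hι P (by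
    rintro (g | ⟨q, o⟩)
    · simp only [P]
      rw [mk_range_eq _ g.2]
      simp
    · simp only [P]
      rw [mk_Ioo_real (by exact_mod_cast q.2)])
  have hrat : ∀ x y : ℝ, x < y → ∃ q : J, x < q.1.1 ∧ (q.1.2 : ℝ) < y := by
    intro x y hxy
    obtain ⟨q1, h1, h2⟩ := exists_rat_btwn hxy
    obtain ⟨q2, h3, h4⟩ := exists_rat_btwn h2
    exact ⟨⟨(q1, q2), by exact_mod_cast h3⟩, h1, h4⟩
  refine ⟨fun a => {t | ∃ q : J, ∃ b, a ≤ b ∧ t = p (Sum.inr (q, some b))}, ?_, ?_, ?_, ?_, ?_⟩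
  · rintro a a' haa' t ⟨q, b, hb, rfl⟩
    exact ⟨q, b, haa'.trans hb, rfl⟩
  · intro a x y hxy
    obtain ⟨q, h1, h2⟩ := hrat x y hxy
    have := hpP (Sum.inr (q, some a))
    exact ⟨_, ⟨q, a, le_rfl, rfl⟩, h1.trans this.1, this.2.trans h2⟩
  · intro x y hxy
    obtain ⟨q, h1, h2⟩ := hrat x y hxy
    have := hpP (Sum.inr (q, none))
    refine ⟨p (Sum.inr (q, none)), ?_, h1.trans this.1, this.2.trans h2⟩
    rintro ⟨q', b, -, h⟩
    have h5 := hp h
    have h6 := congrArg Prod.snd (Sum.inr.inj h5)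
    simp at h6
  · intro t
    by_cases h : ∃ q : J, ∃ b, t = p (Sum.inr (q, some b))
    · obtain ⟨q, b, rfl⟩ := h
      obtain ⟨c, hc⟩ := exists_gt' b
      refine ⟨c, ?_⟩
      rintro ⟨q', b', hb', h⟩
      have h5 := hp h
      have h6 : b = b' := Option.some.inj (congrArg Prod.snd (Sum.inr.inj h5))
      exact absurd (hc.trans_le hb') (by rw [h6]; exact lt_irrefl _)
    · refine ⟨⊥, ?_⟩
      rintro ⟨q', b', -, h'⟩
      exact h ⟨q', b', h'⟩
  · intro g hg
    obtain ⟨β, hβ⟩ := hpP (Sum.inl ⟨g, hg⟩)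
    refine ⟨β, ?_⟩
    rintro ⟨q', b', -, h'⟩
    exact Sum.inl_ne_inr (hp (hβ.symm.trans h'))

end Pool.Agent.P.MP_bf7e1e_gt
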