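import Mathlib

namespace Pool.Agent.P.MP_bf7e1e_gt

/-- A cozero set: the set where a continuous real function does not vanish. -/
def IsCozero {X : Type} [TopologicalSpace X] (U : Set X) : Prop :=
  ∃ f : X → ℝ, Continuous f ∧ U = {x | f x ≠ 0}

/-- The relation `dim X ≤ n`: every finite cover by cozero sets has a finite refinement by
cozero sets (again a cover) such that each point lies in at most `n + 1` of its members. -/
def DimLE (X : Type) [TopologicalSpace X] (n : ℤ) : Prop :=
  ∀ A : Set (Set X), A.Finite → (∀ U ∈ A, IsCozero U) → ⋃₀ A = Set.univ →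
    ∃ B : Set (Set X), B.Finite ∧ (∀ V ∈ B, IsCozero V) ∧ ⋃₀ B = Set.univ ∧
      (∀ V ∈ B, ∃ U ∈ A, V ⊆ U) ∧ ∀ x : X, ({V ∈ B | x ∈ V}.ncard : ℤ) ≤ n + 1

/-- The covering dimension: the least integer `n ≥ -1` with `dim X ≤ n`, and `⊤` if there is
none. -/
noncomputable def covDim (X : Type) [TopologicalSpace X] : EReal :=
  sInf {d : EReal | ∃ n : ℤ, -1 ≤ n ∧ DimLE X n ∧ d = ((n : ℝ) : EReal)}

end Pool.Agent.P.MP_bf7e1e_gt
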