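import Pool.Agent.P.MP_bf7e1e_gt.Run

namespace Pool.Agent.P.MP_bf7e1e_gt

open Set Cardinal

theorem exists_om : ∃ (Ω : Type) (_ : ConditionallyCompleteLinearOrderBot Ω), IsOm Ω ∧ #Ω ≤ 𝔠 := by
  let Ω : Type := (ℵ₁ : Cardinal.{0}).ord.ToType
  have hcard : #Ω = ℵ₁ := mk_ord_toType _
  have hIio : ∀ a : Ω, (Iio a).Countable := fun a => by
    have h : #(Iio a) < ℵ₁ := mk_Iio_toType_ord_lt a
    rw [← le_aleph0_iff_set_countable]
    exact Order.lt_succ_iff.1 (h.trans_eq succ_aleph0.symm)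
  have hIic : ∀ a : Ω, (Iic a).Countable := fun a => by
    rw [← Iio_insert]; exact (hIio a).insert a
  haveI : Nonempty Ω := by
    rw [← mk_ne_zero_iff, hcard]
    exact (aleph_pos 1).ne'
  letI : OrderBot Ω := WellFoundedLT.toOrderBot Ω
  have hwf : WellFoundedLT Ω := inferInstance
  letI inst : ConditionallyCompleteLinearOrderBot Ω :=
    WellFoundedLT.conditionallyCompleteLinearOrderBot Ω
  refine ⟨Ω, inst, ⟨hwf, ?_, hIic⟩, ?_⟩
  · intro f
    by_contra hcon
    push Not at hcon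
    have h1 : (univ : Set Ω) ⊆ ⋃ n, Iic (f n) := fun b _ => by
      obtain ⟨n, hn⟩ := hcon b
      exact mem_iUnion.2 ⟨n, hn⟩
    have h2 : (univ : Set Ω).Countable := (countable_iUnion fun n => hIic (f n)).mono h1
    rw [← le_aleph0_iff_set_countable, mk_univ, hcard] at h2
    exact absurd h2 (not_le.2 aleph0_lt_aleph_one)
  · rw [hcard]; exact aleph_one_le_continuum

theorem main : ∃ (X Y : Type) (_ : TopologicalSpace X) (_ : TopologicalSpace Y),
    T35Space X ∧ T35Space Y ∧ CountablyCompactSpace X ∧ LindelofSpace Y ∧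
      covDim X = 0 ∧ covDim Y = 0 ∧ covDim X + covDim Y < covDim (X × Y) := by
  obtain ⟨Ω, inst, hom, hcard⟩ := exists_om
  letI : TopologicalSpace Ω := Preorder.topology Ω
  haveI : OrderTopology Ω := ⟨rfl⟩
  obtain ⟨F, hF⟩ := exists_forb hcard
  obtain ⟨s₀, -⟩ := nonempty_Y hF
  haveI : Nonempty (YY F) := ⟨s₀⟩
  have hX : covDim Ω = 0 := covDim_eq_zero dimLE_zero_omega
  have hY : covDim (YY F) = 0 := covDim_eq_zero (dimLE_zero_Y hF)
  refine ⟨Ω, YY F, inferInstance, inferInstance, inferInstance, inferInstance,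
    countablyCompact_omega, lindelof_Y hF, hX, hY, ?_⟩
  rw [hX, hY, add_zero]
  exact zero_lt_one.trans_le (one_le_covDim (not_dimLE_zero_prod hF))

end Pool.Agent.P.MP_bf7e1e_gt
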