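import Pool.Agent.P.MP_bf7e1e_gt.Basic

namespace Pool.Agent.P.MP_bf7e1e_gt

open Set Filter Topology

/-- The properties of the first uncountable ordinal which are used. -/
class IsOm (Ω : Type) [ConditionallyCompleteLinearOrderBot Ω] : Prop where
  wf : WellFoundedLT Ω
  bdd : ∀ f : ℕ → Ω, ∃ b, ∀ n, f n < b
  cnt : ∀ a : Ω, (Iic a).Countable

variable {Ω : Type} [ConditionallyCompleteLinearOrderBot Ω] [IsOm Ω]

theorem exists_gt' (a : Ω) : ∃ b, a < b := by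
  obtain ⟨b, hb⟩ := IsOm.bdd (fun _ : ℕ => a)
  exact ⟨b, hb 0⟩

theorem bdd_countable {ι : Type} [Countable ι] (f : ι → Ω) : ∃ b, ∀ i, f i < b := by
  cases isEmpty_or_nonempty ι with
  | inl h => exact ⟨⊥, fun i => h.elim i⟩
  | inr h =>
    obtain ⟨g, hg⟩ := exists_surjective_nat ι
    obtain ⟨b, hb⟩ := IsOm.bdd (f ∘ g)
    refine ⟨b, fun i => ?_⟩
    obtain ⟨n, rfl⟩ := hg i
    exact hb n

theorem bdd_set {S : Set Ω} (hS : S.Countable) : ∃ b, ∀ a ∈ S, a < b := by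
  haveI := hS.to_subtype
  obtain ⟨b, hb⟩ := bdd_countable (fun x : S => (x : Ω))
  exact ⟨b, fun a ha => hb ⟨a, ha⟩⟩

theorem bddAbove_seq (f : ℕ → Ω) : BddAbove (range f) := by
  obtain ⟨b, hb⟩ := IsOm.bdd f
  exact ⟨b, by rintro _ ⟨n, rfl⟩; exact (hb n).le⟩

/-- A monotone real function is eventually constant. -/
theorem eventually_const {φ : Ω → ℝ} (hφ : Monotone φ) : ∃ a, ∀ b, a ≤ b → φ b = φ a := by
  classical
  let g : ℚ → Ω := fun q => if h : ∃ a, (q : ℝ) < φ a then h.choose else ⊥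
  obtain ⟨a, ha⟩ := bdd_countable g
  refine ⟨a, fun b hb => le_antisymm ?_ (hφ hb)⟩
  by_contra hlt
  push Not at hlt
  obtain ⟨q, hq1, hq2⟩ := exists_rat_btwn hlt
  have hex : ∃ a, (q : ℝ) < φ a := ⟨b, hq2⟩
  have h1 : (q : ℝ) < φ (g q) := by
    simp only [g, dif_pos hex]
    exact hex.choose_spec
  have h2 : φ (g q) ≤ φ a := hφ (ha q).le
  linarith

variable [TopologicalSpace Ω] [OrderTopology Ω]

theorem isOpen_Iic' (a : Ω) : IsOpen (Iic a) := by
  have hne : (Ioi a).Nonempty := exists_gt' a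
  have hwf : WellFounded ((· < ·) : Ω → Ω → Prop) := (IsOm.wf (Ω := Ω)).wf
  have : Iic a = Iio (hwf.min (Ioi a) hne) := by
    ext x
    simp only [mem_Iic, mem_Iio]
    constructor
    · intro hx
      exact lt_of_le_of_lt hx (hwf.min_mem _ hne)
    · intro hx
      by_contra h
      exact hwf.not_lt_min (Ioi a) (not_le.1 h) hx
  rw [this]
  exact isOpen_Iio

theorem isClopen_Iic' (a : Ω) : IsClopen (Iic a) := ⟨isClosed_Iic, isOpen_Iic' a⟩

theorem isClopen_Ioi' (a : Ω) : IsClopen (Ioi a) := by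
  rw [← compl_Iic]; exact (isClopen_Iic' a).compl

/-- Unbounded subsets. -/
def Unb (A : Set Ω) : Prop := ∀ a, ∃ b ∈ A, a ≤ b

theorem Unb.inter {A B : Set Ω} (hA : IsClosed A) (hB : IsClosed B) (uA : Unb A) (uB : Unb B) :
    Unb (A ∩ B) := by
  intro a
  choose gA hgA hgA' using uA
  choose gB hgB hgB' using uB
  let x : ℕ → Ω := fun n => (fun y => gB (gA y))^[n] a
  have hx : ∀ n, x (n + 1) = gB (gA (x n)) := fun n => Function.iterate_succ_apply' _ _ _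
  have hmono : Monotone x := monotone_nat_of_le_succ fun n => by
    rw [hx]; exact (hgA' _).trans (hgB' _)
  have hlim : Tendsto x atTop (𝓝 (⨆ n, x n)) := tendsto_atTop_ciSup hmono (bddAbove_seq x)
  have hlim' : Tendsto (fun n => x (n + 1)) atTop (𝓝 (⨆ n, x n)) :=
    hlim.comp (tendsto_add_atTop_nat 1)
  have hlim'' : Tendsto (fun n => gA (x n)) atTop (𝓝 (⨆ n, x n)) :=
    tendsto_of_tendsto_of_tendsto_of_le_of_le hlim hlim' (fun n => hgA' _)
      (fun n => by simp only [hx]; exact hgB' _)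
  refine ⟨⨆ n, x n, ⟨?_, ?_⟩, le_ciSup (bddAbove_seq x) 0⟩
  · exact hA.mem_of_tendsto hlim'' (Eventually.of_forall fun n => hgA _)
  · exact hB.mem_of_tendsto hlim' (Eventually.of_forall fun n => by rw [hx]; exact hgB _)

theorem Unb.sInter {S : Set (Set Ω)} (hS : S.Finite) (hc : ∀ A ∈ S, IsClosed A)
    (hu : ∀ A ∈ S, Unb A) : Unb (⋂₀ S) := by
  induction S, hS using Set.Finite.induction_on with
  | empty => intro a; exact ⟨a, by simp, le_rfl⟩
  | @insert A S _ _ ih =>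
    rw [sInter_insert]
    exact Unb.inter (hc A (mem_insert _ _))
      (isClosed_sInter fun B hB => hc B (mem_insert_of_mem _ hB)) (hu A (mem_insert _ _))
      (ih (fun B hB => hc B (mem_insert_of_mem _ hB)) (fun B hB => hu B (mem_insert_of_mem _ hB)))

theorem exists_clopen_nhd {U : Set Ω} (hU : IsOpen U) {x : Ω} (hx : x ∈ U) :
    ∃ C, IsClopen C ∧ x ∈ C ∧ C ⊆ U := by
  by_cases hbot : x = ⊥
  · subst hbot
    refine ⟨Iic ⊥, isClopen_Iic' _, mem_Iic.2 le_rfl, fun y hy => ?_⟩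
    have : y = ⊥ := le_bot_iff.1 hy
    rwa [this]
  · obtain ⟨l, hl, hsub⟩ := exists_Ioc_subset_of_mem_nhds (hU.mem_nhds hx)
      ⟨⊥, bot_lt_iff_ne_bot.2 hbot⟩
    exact ⟨Ioi l ∩ Iic x, (isClopen_Ioi' l).inter (isClopen_Iic' x), ⟨hl, le_rfl⟩, hsub⟩

theorem dimLE_zero_omega : DimLE Ω 0 := by
  refine dimLE_zero_of_clopen fun A hA hopen hcov => ?_
  have hcov' : ∀ x, ∃ U ∈ A, x ∈ U := fun x => by
    have : x ∈ ⋃₀ A := by rw [hcov]; trivial
    exact this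
  have htail : ∃ U ∈ A, ∃ a, Ioi a ⊆ U := by
    by_contra hcon
    push Not at hcon
    have : Unb (⋂₀ (compl '' A)) := by
      refine Unb.sInter (hA.image _) ?_ ?_
      · rintro _ ⟨U, hU, rfl⟩
        exact (hopen U hU).isClosed_compl
      · rintro _ ⟨U, hU, rfl⟩ a
        obtain ⟨b, hb, hbU⟩ := not_subset.1 (hcon U hU a)
        exact ⟨b, hbU, le_of_lt hb⟩
    obtain ⟨b, hb, -⟩ := this ⊥
    obtain ⟨U, hU, hbU⟩ := hcov' b
    exact hb Uᶜ ⟨U, hU, rfl⟩ hbU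
  obtain ⟨U₀, hU₀, a, ha⟩ := htail
  have hloc : ∀ x : Ω, ∃ C, IsClopen C ∧ x ∈ C ∧ ∃ U ∈ A, C ⊆ U := by
    intro x
    obtain ⟨U, hU, hxU⟩ := hcov' x
    obtain ⟨C, h1, h2, h3⟩ := exists_clopen_nhd (hopen U hU) hxU
    exact ⟨C, h1, h2, U, hU, h3⟩
  choose C hC1 hC2 hC3 using hloc
  obtain ⟨e, he⟩ := (IsOm.cnt a).exists_eq_range ⟨a, mem_Iic.2 le_rfl⟩
  refine ⟨fun n => Nat.casesOn n (Ioi a) (fun m => C (e m)), ?_, ?_, ?_⟩
  · rintro (_ | m)
    · exact isClopen_Ioi' a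
    · exact hC1 _
  · refine eq_univ_of_forall fun x => mem_iUnion.2 ?_
    by_cases hx : x ≤ a
    · have : x ∈ range e := he ▸ hx
      obtain ⟨m, rfl⟩ := this
      exact ⟨m + 1, hC2 _⟩
    · exact ⟨0, not_le.1 hx⟩
  · rintro (_ | m)
    · exact ⟨U₀, hU₀, ha⟩
    · exact hC3 _

theorem countablyCompact_omega : CountablyCompactSpace Ω := by
  refine ⟨IsCountablyCompact.of_seq_clusterPt fun x _ => ?_⟩
  obtain ⟨b, hb⟩ := IsOm.bdd x
  obtain ⟨a, -, ha⟩ := (isCompact_Icc (a := (⊥ : Ω)) (b := b)).exists_mapClusterPt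
    (f := atTop) (u := x) (by
      rw [le_principal_iff, mem_map]
      exact Eventually.of_forall fun n => ⟨bot_le, (hb n).le⟩)
  exact ⟨a, mem_univ _, ha⟩

theorem t35_omega : T35Space Ω := inferInstance

end Pool.Agent.P.MP_bf7e1e_gt
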