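import Pool.Agent.P.MP_bf7e1e_gt.Space

namespace Pool.Agent.P.MP_bf7e1e_gt

open Set Filter Topology

variable {Ω : Type} [ConditionallyCompleteLinearOrderBot Ω] [TopologicalSpace Ω]

/-- A state: a member of `U` which is constant from `ξ` on. -/
structure St {F : Ω → Set ℝ} (U : Set (YY F)) where
  s : YY F
  ξ : Ω
  mem : s ∈ U
  const : ∀ b, ξ ≤ b → s.1 b = s.1 ξ

variable {F : Ω → Set ℝ} {U : Set (YY F)}

def St.Ext (x y : St U) : Prop := x.ξ ≤ y.ξ ∧ ∀ a, a ≤ x.ξ → y.s.1 a = x.s.1 a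

def St.lo (x : St U) : ℝ := x.s.1 x.ξ

def St.vals (x : St U) : Set ℝ :=
  {t | ∃ s' ∈ U, (∀ a, a ≤ x.ξ → s'.1 a = x.s.1 a) ∧ ∃ a, t = s'.1 a}

noncomputable def St.hi (x : St U) : ℝ := sSup x.vals

theorem St.Ext.refl (x : St U) : x.Ext x := ⟨le_rfl, fun _ _ => rfl⟩

theorem St.Ext.trans {x y z : St U} (h1 : x.Ext y) (h2 : y.Ext z) : x.Ext z :=
  ⟨h1.1.trans h2.1, fun a ha => (h2.2 a (ha.trans h1.1)).trans (h1.2 a ha)⟩

theorem St.vals_nonempty (x : St U) : x.vals.Nonempty :=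
  ⟨x.lo, x.s, x.mem, fun _ _ => rfl, x.ξ, rfl⟩

theorem St.vals_bdd (hU : ∀ s ∈ U, ∀ a, s.1 a ≤ 1) (x : St U) : BddAbove x.vals := by
  refine ⟨1, ?_⟩
  rintro _ ⟨s', hs', -, a, rfl⟩
  exact hU s' hs' a

theorem St.Ext.val_le_hi (hU : ∀ s ∈ U, ∀ a, s.1 a ≤ 1) {x y : St U} (h : x.Ext y) (a : Ω) :
    y.s.1 a ≤ x.hi :=
  le_csSup (x.vals_bdd hU) ⟨y.s, y.mem, h.2, a, rfl⟩

theorem St.hi_le_one (hU : ∀ s ∈ U, ∀ a, s.1 a ≤ 1) (x : St U) : x.hi ≤ 1 := by
  refine csSup_le x.vals_nonempty ?_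
  rintro _ ⟨s', hs', -, a, rfl⟩
  exact hU s' hs' a

theorem St.Ext.lo_le_hi (hU : ∀ s ∈ U, ∀ a, s.1 a ≤ 1) {x y : St U} (h : x.Ext y) :
    y.lo ≤ x.hi := h.val_le_hi hU _

theorem St.Ext.lo_le {x y : St U} (h : x.Ext y) : x.lo ≤ y.lo := by
  unfold St.lo
  rw [← h.2 x.ξ le_rfl]
  exact y.s.2.1 h.1

theorem St.Ext.hi_le (hU : ∀ s ∈ U, ∀ a, s.1 a ≤ 1) {x y : St U} (h : x.Ext y) :
    y.hi ≤ x.hi := by
  refine csSup_le_csSup (x.vals_bdd hU) y.vals_nonempty ?_
  rintro _ ⟨s', hs', h', a, rfl⟩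
  exact ⟨s', hs', fun b hb => (h' b (hb.trans h.1)).trans (h.2 b hb), a, rfl⟩

theorem St.Ext.val_le {x y : St U} (h : x.Ext y) (a : Ω) : x.s.1 a ≤ y.s.1 a := by
  rcases le_total a x.ξ with ha | ha
  · exact (h.2 a ha).ge
  · rw [x.const a ha, ← h.2 x.ξ le_rfl]
    exact y.s.2.1 ha

theorem St.Ext.val_sub_le (hU : ∀ s ∈ U, ∀ a, s.1 a ≤ 1) {x y : St U} (h : x.Ext y) (a : Ω) :
    y.s.1 a - x.s.1 a ≤ x.hi - x.lo := by
  rcases le_total a x.ξ with ha | ha
  · rw [h.2 a ha, sub_self, sub_nonneg]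
    exact (St.Ext.refl x).lo_le_hi hU
  · rw [x.const a ha]
    exact sub_le_sub_right (h.val_le_hi hU a) _

theorem St.exists_far (x : St U) (a : Ω) : ∃ y : St U, x.Ext y ∧ a ≤ y.ξ :=
  ⟨⟨x.s, max x.ξ a, x.mem, fun b hb => by
      rw [x.const b ((le_max_left _ _).trans hb), x.const _ (le_max_left _ _)]⟩,
    ⟨le_max_left _ _, fun _ _ => rfl⟩, le_max_right _ _⟩

variable [IsOm Ω]

theorem St.exists_ext (x : St U) {t : ℝ} (ht : t < x.hi) : ∃ y : St U, x.Ext y ∧ t < y.lo := by
  obtain ⟨_, ⟨s', hs', h', a, rfl⟩, hta⟩ := exists_lt_of_lt_csSup x.vals_nonempty ht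
  obtain ⟨c, hc⟩ := eventually_const s'.2.1
  refine ⟨⟨s', max (max x.ξ a) c, hs', fun b hb => ?_⟩,
    ⟨(le_max_left _ _).trans (le_max_left _ _), h'⟩, ?_⟩
  · rw [hc b ((le_max_right _ _).trans hb), hc _ (le_max_right _ _)]
  · exact hta.trans_le (s'.2.1 ((le_max_right _ _).trans (le_max_left _ _)))

variable [OrderTopology Ω]

/-- Raising the eventual value. -/
noncomputable def St.raise (hF : Forb F) (x : St U) (v : ℝ) (hv : x.lo ≤ v) (hv' : v ∉ F ⊥) :
    YY F :=
  ⟨fun a => if a ≤ x.ξ then x.s.1 a else v, by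
    intro a b hab
    by_cases hb : b ≤ x.ξ
    · simp only [if_pos hb, if_pos (hab.trans hb)]; exact x.s.2.1 hab
    · by_cases ha : a ≤ x.ξ
      · simp only [if_neg hb, if_pos ha]; exact (x.s.2.1 ha).trans hv
      · simp only [if_neg hb, if_neg ha]; exact le_rfl, by
    refine Continuous.if ?_ x.s.2.2.1 continuous_const
    intro a ha
    have : frontier {a : Ω | a ≤ x.ξ} = ∅ := (isClopen_Iic' x.ξ).frontier_eq
    rw [this] at ha
    exact ha.elim, by
    intro a
    by_cases ha : a ≤ x.ξ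
    · simp only [if_pos ha]; exact x.s.2.2.2 a
    · simp only [if_neg ha]; exact fun h => hv' (hF.anti bot_le h)⟩

theorem chain_ext {x : ℕ → St U} (hx : ∀ n, (x n).Ext (x (n + 1))) {n m : ℕ} (h : n ≤ m) :
    (x n).Ext (x m) := by
  induction m, h using Nat.le_induction with
  | base => exact St.Ext.refl _
  | succ m _ ih => exact ih.trans (hx m)

theorem run_lemma (hF : Forb F) (hU : ∀ s ∈ U, ∀ a, s.1 a ≤ 1)
    (h1 : IsSeqClosed U) (h2 : IsSeqClosed Uᶜ)
    {x : ℕ → St U} (hx : ∀ n, (x n).Ext (x (n + 1)))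
    (hgap : Tendsto (fun n => (x n).hi - (x n).lo) atTop (𝓝 0)) :
    (⨆ n, (x n).lo) ∈ F (x 0).ξ := by
  by_contra ht
  let σ : Ω → ℝ := fun a => ⨆ n, (x n).s.1 a
  have hmono : ∀ a, Monotone fun n => (x n).s.1 a := fun a n m h => (chain_ext hx h).val_le a
  have hbdd : ∀ a, BddAbove (range fun n => (x n).s.1 a) := fun a =>
    ⟨1, by rintro _ ⟨n, rfl⟩; exact hU _ (x n).mem a⟩
  have hlim : ∀ a, Tendsto (fun n => (x n).s.1 a) atTop (𝓝 (σ a)) := fun a =>
    tendsto_atTop_ciSup (hmono a) (hbdd a)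
  have hle : ∀ n a, (x n).s.1 a ≤ σ a := fun n a => le_ciSup (hbdd a) n
  have hest : ∀ n a, σ a - (x n).s.1 a ≤ (x n).hi - (x n).lo := by
    intro n a
    refine le_of_tendsto ((hlim a).sub_const _) ?_
    filter_upwards [eventually_ge_atTop n] with m hm
    exact (chain_ext hx hm).val_sub_le hU a
  have hunif : TendstoUniformly (fun n => (x n).s.1) σ atTop := by
    rw [Metric.tendstoUniformly_iff]
    intro ε hε
    filter_upwards [hgap.eventually (gt_mem_nhds hε)] with n hn a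
    rw [Real.dist_eq, abs_of_nonneg (sub_nonneg.2 (hle n a))]
    exact (hest n a).trans_lt hn
  have hσc : Continuous σ :=
    hunif.continuous (Eventually.of_forall fun n => (x n).s.2.2.1).frequently
  have hσm : Monotone σ := fun a b hab =>
    le_of_tendsto_of_tendsto' (hlim a) (hlim b) fun n => (x n).s.2.1 hab
  have hσF : ∀ a, σ a ∉ F a := by
    intro a
    by_cases ha : ∃ n, a ≤ (x n).ξ
    · obtain ⟨n, hn⟩ := ha
      have : σ a = (x n).s.1 a := by
        refine tendsto_nhds_unique (hlim a) (tendsto_const_nhds.congr' ?_)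
        filter_upwards [eventually_ge_atTop n] with m hm
        exact ((chain_ext hx hm).2 a hn).symm
      rw [this]
      exact (x n).s.2.2.2 a
    · push Not at ha
      have : σ a = ⨆ n, (x n).lo := by
        simp only [σ]
        congr 1
        ext n
        exact (x n).const a (ha n).le
      rw [this]
      exact fun h => ht (hF.anti (ha 0).le h)
  let z : YY F := ⟨σ, hσm, hσc, hσF⟩
  have hz1 : z ∈ U := by
    refine h1 (x := fun n => (x n).s) (fun n => (x n).mem) ?_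
    rw [tendsto_subtype_rng, tendsto_pi_nhds]
    exact hlim
  have hv : ∀ n : ℕ, ∃ v, v ∉ F ⊥ ∧ (x n).hi < v ∧ v < (x n).hi + 1 / ((n : ℝ) + 1) := fun n =>
    hF.codense _ _ (lt_add_of_pos_right _ Nat.one_div_pos_of_nat)
  choose v hv1 hv2 hv3 using hv
  have hlo : ∀ n, (x n).lo ≤ v n := fun n =>
    ((St.Ext.refl (x n)).lo_le_hi hU).trans (hv2 n).le
  let w : ℕ → YY F := fun n => (x n).raise hF (v n) (hlo n) (hv1 n)
  have hw1 : ∀ n a, a ≤ (x n).ξ → (w n).1 a = (x n).s.1 a := fun n a ha => if_pos ha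
  have hw2 : ∀ n a, (x n).ξ < a → (w n).1 a = v n := fun n a ha => if_neg (not_le.2 ha)
  have hwU : ∀ n, w n ∈ Uᶜ := by
    intro n hn
    obtain ⟨a, ha⟩ := exists_gt' (x n).ξ
    have : v n ≤ (x n).hi :=
      le_csSup ((x n).vals_bdd hU) ⟨w n, hn, hw1 n, a, (hw2 n a ha).symm⟩
    exact absurd (hv2 n) (not_lt.2 this)
  have hz2 : z ∈ Uᶜ := by
    refine h2 (x := w) hwU ?_
    rw [tendsto_subtype_rng, tendsto_pi_nhds]
    intro a
    have h3 : Tendsto (fun n : ℕ => (x n).s.1 a + (((x n).hi - (x n).lo) + 1 / ((n : ℝ) + 1)))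
        atTop (𝓝 (σ a)) := by
      have := (hlim a).add (hgap.add tendsto_one_div_add_atTop_nhds_zero_nat)
      simpa using this
    refine tendsto_of_tendsto_of_tendsto_of_le_of_le (hlim a) h3 (fun n => ?_) (fun n => ?_)
    · rcases le_or_gt a (x n).ξ with ha | ha
      · exact (hw1 n a ha).ge
      · simp only [hw2 n a ha, (x n).const a ha.le]; exact hlo n
    · have h4 : 0 ≤ (x n).hi - (x n).lo := sub_nonneg.2 ((St.Ext.refl (x n)).lo_le_hi hU)
      have h5 : (0 : ℝ) < 1 / ((n : ℝ) + 1) := Nat.one_div_pos_of_nat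
      rcases le_or_gt a (x n).ξ with ha | ha
      · simp only [hw1 n a ha]; linarith
      · simp only [hw2 n a ha, (x n).const a ha.le]
        have := hv3 n
        unfold St.lo
        linarith
  exact hz2 hz1

theorem path_congr {β β' : ℕ → Bool} {n : ℕ} (h : ∀ m, m < n → β m = β' m) :
    path β n = path β' n := by
  induction n with
  | zero => rfl
  | succ n ih =>
    simp only [path]
    rw [h n (Nat.lt_succ_self n), ih fun m hm => h m (hm.trans (Nat.lt_succ_self n))]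

theorem path_length (β : ℕ → Bool) (n : ℕ) : (path β n).length = n := by
  induction n with
  | zero => rfl
  | succ n ih => simp [path, ih]

theorem no_seq_clopen (hF : Forb F) (hU : ∀ s ∈ U, ∀ a, s.1 a ≤ 1)
    (h1 : IsSeqClosed U) (h2 : IsSeqClosed Uᶜ) (hne : U.Nonempty) : False := by
  have hpos : ∀ n : ℕ, (0 : ℝ) < 1 / ((n : ℝ) + 1) := fun n => Nat.one_div_pos_of_nat
  have hgap : ∀ x : ℕ → St U, (∀ n, (x (n + 1)).hi - (x (n + 1)).lo ≤ 1 / ((n : ℝ) + 1)) →
      Tendsto (fun n => (x n).hi - (x n).lo) atTop (𝓝 0) := by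
    intro x hx
    rw [← tendsto_add_atTop_iff_nat 1]
    exact squeeze_zero (fun n => sub_nonneg.2 ((St.Ext.refl _).lo_le_hi hU)) hx
      tendsto_one_div_add_atTop_nhds_zero_nat
  by_cases hA : ∃ x : St U, ∀ y, x.Ext y → y.hi = x.hi
  · obtain ⟨x, hx⟩ := hA
    obtain ⟨a, ha⟩ := hF.empty x.hi
    obtain ⟨x₀, hx₀, hax₀⟩ := x.exists_far a
    have hstep : ∀ (y : St U) (n : ℕ), ∃ y', y.Ext y' ∧ y.hi - 1 / ((n : ℝ) + 1) < y'.lo :=
      fun y n => y.exists_ext (sub_lt_self _ (hpos n))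
    choose nx hnx1 hnx2 using hstep
    let c : ℕ → St U := fun n => Nat.rec x₀ (fun n y => nx y n) n
    have hc : ∀ n, (c n).Ext (c (n + 1)) := fun n => hnx1 _ _
    have hhi : ∀ n, (c n).hi = x.hi := fun n => hx _ (hx₀.trans (chain_ext hc (Nat.zero_le n)))
    have hlo : ∀ n : ℕ, x.hi - 1 / ((n : ℝ) + 1) < (c (n + 1)).lo := fun n => by
      rw [← hhi n]; exact hnx2 _ _
    have hg := hgap c (fun n => by linarith [hlo n, hhi (n + 1)])
    have hrun := run_lemma hF hU h1 h2 hc hg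
    have hmono : Monotone fun n => (c n).lo := fun n m h => (chain_ext hc h).lo_le
    have hbdd : BddAbove (range fun n => (c n).lo) :=
      ⟨1, by rintro _ ⟨n, rfl⟩; exact hU _ (c n).mem _⟩
    have hl1 := tendsto_atTop_ciSup hmono hbdd
    have hl2 : Tendsto (fun n => (c n).lo) atTop (𝓝 x.hi) := by
      have := (tendsto_const_nhds (x := x.hi)).sub hg
      simp only [hhi, sub_sub_cancel, sub_zero] at this
      exact this
    rw [tendsto_nhds_unique hl1 hl2] at hrun
    exact ha (hF.anti hax₀ hrun)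
  · push Not at hA
    have hsplit : ∀ (x : St U) (n : ℕ), ∃ ch : Bool → St U, (∀ b, x.Ext (ch b)) ∧
        (∀ b, (ch b).hi - (ch b).lo ≤ 1 / ((n : ℝ) + 1)) ∧ (ch false).hi < (ch true).lo := by
      intro x n
      obtain ⟨y, hxy, hne'⟩ := hA x
      have hlt : y.hi < x.hi := lt_of_le_of_ne (hxy.hi_le hU) hne'
      obtain ⟨y0, h01, h02⟩ := y.exists_ext (sub_lt_self y.hi (hpos n))
      obtain ⟨y1, h11, h12⟩ := x.exists_ext (max_lt hlt (sub_lt_self x.hi (hpos n)))
      have h03 := h01.hi_le hU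
      have h13 := h11.hi_le hU
      have h14 := (max_lt_iff.1 h12)
      refine ⟨fun b => Bool.casesOn b y0 y1, ?_, ?_, ?_⟩
      · rintro (_ | _)
        · exact hxy.trans h01
        · exact h11
      · rintro (_ | _)
        · show y0.hi - y0.lo ≤ _
          linarith
        · show y1.hi - y1.lo ≤ _
          linarith [h14.2]
      · show y0.hi < y1.lo
        linarith [h14.1]
    choose ch hch1 hch2 hch3 using hsplit
    obtain ⟨s₀, hs₀⟩ := hne
    obtain ⟨c₀, hc₀⟩ := eventually_const s₀.2.1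
    let x₀ : St U := ⟨s₀, c₀, hs₀, hc₀⟩
    let node : List Bool → St U := fun l =>
      List.rec x₀ (fun b l y => ch y l.length b) l
    have hnode : ∀ b l, node (b :: l) = ch (node l) l.length b := fun _ _ => rfl
    have hc : ∀ β n, (node (path β n)).Ext (node (path β (n + 1))) := fun β n => by
      simp only [path, hnode]; exact hch1 _ _ _
    have hbdd : ∀ β, BddAbove (range fun n => (node (path β n)).lo) := fun β =>
      ⟨1, by rintro _ ⟨n, rfl⟩; exact hU _ (node _).mem _⟩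
    have hlow : ∀ β n, (node (path β n)).lo ≤ lim (fun l => (node l).lo) β := fun β n =>
      le_ciSup (hbdd β) n
    have hupp : ∀ β n, lim (fun l => (node l).lo) β ≤ (node (path β n)).hi := by
      intro β n
      refine ciSup_le fun m => ?_
      rcases le_total n m with h | h
      · exact (chain_ext (hc β) h).lo_le_hi hU
      · exact (chain_ext (hc β) h).lo_le.trans ((St.Ext.refl _).lo_le_hi hU)
    have hsep : ∀ β β' n, (∀ m, m < n → β m = β' m) → β n = false → β' n = true →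
        lim (fun l => (node l).lo) β < lim (fun l => (node l).lo) β' := by
      intro β β' n h hb hb'
      have e1 := hupp β (n + 1)
      have e2 := hlow β' (n + 1)
      simp only [path, hnode, hb, hb'] at e1 e2
      rw [path_congr h] at e1
      exact (e1.trans_lt (hch3 _ _)).trans_le e2
    have hinj : Function.Injective (lim fun l => (node l).lo) := by
      intro β β' hββ
      by_contra hne'
      have hex : ∃ n, β n ≠ β' n := by
        by_contra hcon
        push Not at hcon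
        exact hne' (funext hcon)
      classical
      have h3 := Nat.find_spec hex
      have h4 : ∀ m, m < Nat.find hex → β m = β' m := fun m hm => by
        have := Nat.find_min hex hm
        push Not at this
        exact this
      cases hb : β (Nat.find hex) <;> cases hb' : β' (Nat.find hex)
      · exact h3 (hb.trans hb'.symm)
      · exact absurd hββ (hsep β β' _ h4 hb hb').ne
      · exact absurd hββ (hsep β' β _ (fun m hm => (h4 m hm).symm) hb' hb).ne'
      · exact h3 (hb.trans hb'.symm)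
    obtain ⟨β, hβ⟩ := hF.noperf _ hinj
    have hg := hgap (fun n => node (path β n)) (fun n => by
      simp only [path, hnode, path_length]; exact hch2 _ _ _)
    exact hβ (hF.anti bot_le (run_lemma hF hU h1 h2 (hc β) hg))

theorem not_dimLE_zero_prod (hF : Forb F) : ¬ DimLE (Ω × YY F) 0 := by
  intro h
  obtain ⟨W, hW, hW0, hW1⟩ := exists_clopen_of_dimLE_zero h (continuous_eval_Y (F := F))
  have hsec : ∀ s : YY F, IsClopen {a : Ω | (a, s) ∈ W} := fun s =>
    hW.preimage (Continuous.prodMk_left s)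
  have hsec' : ∀ a : Ω, IsClopen {s : YY F | (a, s) ∈ W} := fun a =>
    hW.preimage (Continuous.prodMk_right a)
  let U : Set (YY F) := {s | Unb {a : Ω | (a, s) ∈ W}}
  refine no_seq_clopen (U := U) hF ?_ ?_ ?_ ?_
  · intro s hs a
    obtain ⟨b, hb, hab⟩ := hs a
    exact (s.2.1 hab).trans (hW1 _ hb).le
  · intro x z hx hlim a
    have htail : ∀ n, ∃ c, ∀ b, c ≤ b → (b, x n) ∈ W := by
      intro n
      by_contra hcon
      push Not at hcon
      have hu : Unb {a : Ω | (a, x n) ∈ W}ᶜ := fun c => by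
        obtain ⟨b, h1, h2⟩ := hcon c
        exact ⟨b, h2, h1⟩
      obtain ⟨b, hb, -⟩ := Unb.inter (hsec (x n)).isClosed (hsec (x n)).compl.isClosed
        (hx n) hu ⊥
      exact hb.2 hb.1
    choose c hc using htail
    obtain ⟨b, hb⟩ := IsOm.bdd c
    refine ⟨max a b, ?_, le_max_left _ _⟩
    exact (hsec' (max a b)).isClosed.mem_of_tendsto hlim
      (Eventually.of_forall fun n => hc n _ ((hb n).le.trans (le_max_right _ _)))
  · intro x z hx hlim hz
    have htail : ∀ n, ∃ c, ∀ b, c ≤ b → (b, x n) ∉ W := by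
      intro n
      by_contra hcon
      push Not at hcon
      exact hx n fun c => by
        obtain ⟨b, h1, h2⟩ := hcon c
        exact ⟨b, h2, h1⟩
    choose c hc using htail
    obtain ⟨b₀, hb₀⟩ := IsOm.bdd c
    obtain ⟨b, hb, hb'⟩ := hz b₀
    have : z ∈ {s : YY F | (b, s) ∈ W}ᶜ :=
      (hsec' b).compl.isClosed.mem_of_tendsto hlim
        (Eventually.of_forall fun n => hc n _ ((hb₀ n).le.trans hb'))
    exact this hb
  · obtain ⟨s, hs⟩ := nonempty_Y hF
    exact ⟨s, fun a => ⟨a, hW0 (a, s) (hs a), le_rfl⟩⟩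

end Pool.Agent.P.MP_bf7e1e_gt
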