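import Pool.Agent.P.MP_bf7e1e_gt.Choice

namespace Pool.Agent.P.MP_bf7e1e_gt

open Set Filter Topology

variable {Ω : Type} [ConditionallyCompleteLinearOrderBot Ω] [TopologicalSpace Ω]

/-- The second factor: monotone continuous functions avoiding the forbidden sets, with the
topology of pointwise convergence. -/
abbrev YY (F : Ω → Set ℝ) : Type :=
  {s : Ω → ℝ // Monotone s ∧ Continuous s ∧ ∀ a, s a ∉ F a}

theorem continuous_evalAt {F : Ω → Set ℝ} (a : Ω) : Continuous (fun s : YY F => s.1 a) :=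
  (continuous_apply a).comp continuous_subtype_val

theorem exists_basic {F : Ω → Set ℝ} {O : Set (YY F)} (hO : IsOpen O) {s : YY F} (hs : s ∈ O) :
    ∃ (I : Finset Ω) (u : Ω → Set ℝ), (∀ i ∈ I, IsOpen (u i) ∧ s.1 i ∈ u i) ∧
      ∀ s' : YY F, (∀ i ∈ I, s'.1 i ∈ u i) → s' ∈ O := by
  obtain ⟨O', hO', rfl⟩ := isOpen_induced_iff.1 hO
  obtain ⟨I, u, h1, h2⟩ := isOpen_pi_iff.1 hO' s.1 hs
  exact ⟨I, u, h1, fun s' hs' => h2 (fun i hi => hs' i hi)⟩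

theorem exists_clopen_nhd_Y {F : Ω → Set ℝ} (hF : Forb F) {O : Set (YY F)} (hO : IsOpen O)
    {s : YY F} (hs : s ∈ O) : ∃ C, IsClopen C ∧ s ∈ C ∧ C ⊆ O := by
  obtain ⟨I, u, h1, h2⟩ := exists_basic hO hs
  have : ∀ i : Ω, i ∈ I → ∃ C : Set (YY F), IsClopen C ∧ s ∈ C ∧ ∀ s' ∈ C, s'.1 i ∈ u i := by
    intro i hi
    obtain ⟨l, r, ⟨hl, hr⟩, hsub⟩ := mem_nhds_iff_exists_Ioo_subset.1
      ((h1 i hi).1.mem_nhds (h1 i hi).2)
    obtain ⟨p, hp, hp1, hp2⟩ := hF.dense i l (s.1 i) hl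
    obtain ⟨q, hq, hq1, hq2⟩ := hF.dense i (s.1 i) r hr
    refine ⟨{s' | s'.1 i ∈ Ioo p q}, ⟨?_, isOpen_Ioo.preimage (continuous_evalAt i)⟩,
      ⟨hp2, hq1⟩, fun s' hs' => hsub ⟨hp1.trans hs'.1, hs'.2.trans hq2⟩⟩
    have : {s' : YY F | s'.1 i ∈ Ioo p q} = {s' : YY F | s'.1 i ∈ Icc p q} := by
      ext s'
      constructor
      · intro h; exact ⟨h.1.le, h.2.le⟩
      · intro h
        refine ⟨lt_of_le_of_ne h.1 fun h' => s'.2.2.2 i (h' ▸ hp), lt_of_le_of_ne h.2 fun h' => ?_⟩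
        exact s'.2.2.2 i (h' ▸ hq)
    rw [this]
    exact isClosed_Icc.preimage (continuous_evalAt i)
  choose! C hC1 hC2 hC3 using this
  refine ⟨⋂ i ∈ I, C i, isClopen_biInter_finset hC1, mem_iInter₂.2 hC2, fun s' hs' => ?_⟩
  exact h2 s' fun i hi => hC3 i hi s' (mem_iInter₂.1 hs' i hi)

variable [OrderTopology Ω]

/-- Truncation at `l`. -/
def trunc {F : Ω → Set ℝ} (hF : Forb F) (s : YY F) (l : Ω) : YY F :=
  ⟨fun a => s.1 (min a l), fun _ _ h => s.2.1 (min_le_min_right l h),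
    s.2.2.1.comp (continuous_id.min continuous_const),
    fun a h => s.2.2.2 (min a l) (hF.anti (min_le_left a l) h)⟩

/-- Basic sets described by finitely many rational constraints and an upper tail constraint. -/
def NN (F : Ω → Set ℝ) (d : Set (Ω × ℚ × ℚ) × ℚ) (α : Ω) : Set (YY F) :=
  {s | (∀ e ∈ d.1, (e.2.1 : ℝ) < s.1 e.1 ∧ s.1 e.1 < e.2.2) ∧ s.1 α < d.2}

variable [IsOm Ω]

theorem countable_subcover {F : Ω → Set ℝ} (hF : Forb F) {ι : Type} [Nonempty ι]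
    (O : ι → Set (YY F)) (hO : ∀ i, IsOpen (O i)) (hcov : ∀ s, ∃ i, s ∈ O i) :
    ∃ S : Set ι, S.Countable ∧ ∀ s, ∃ i ∈ S, s ∈ O i := by
  classical
  have hch : ∀ d : Set (Ω × ℚ × ℚ) × ℚ, ∃ (α : Ω) (i : ι),
      (∃ α' i', NN F d α' ⊆ O i') → NN F d α ⊆ O i := by
    intro d
    by_cases h : ∃ α' i', NN F d α' ⊆ O i'
    · obtain ⟨α, i, h⟩ := h
      exact ⟨α, i, fun _ => h⟩
    · exact ⟨⊥, Classical.arbitrary ι, fun h' => absurd h' h⟩
  choose al ix hal using hch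
  let D : Ω → Set (Set (Ω × ℚ × ℚ) × ℚ) := fun b =>
    {t | t.Finite ∧ t ⊆ Iic b ×ˢ univ} ×ˢ univ
  have hD : ∀ b, (D b).Countable := fun b =>
    (countable_setOf_finite_subset ((IsOm.cnt b).prod countable_univ)).prod countable_univ
  have hg : ∀ b : Ω, ∃ c, b < c ∧ ∀ d ∈ D b, al d < c := by
    intro b
    obtain ⟨c, hc⟩ := bdd_set (((hD b).image al).insert b)
    exact ⟨c, hc b (mem_insert _ _), fun d hd => hc _ (mem_insert_of_mem _ ⟨d, hd, rfl⟩)⟩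
  choose g hg1 hg2 using hg
  let lam : ℕ → Ω := fun n => g^[n] ⊥
  have hlam : ∀ n, lam (n + 1) = g (lam n) := fun n => Function.iterate_succ_apply' _ _ _
  have hmono : Monotone lam := monotone_nat_of_le_succ fun n => by rw [hlam]; exact (hg1 _).le
  set L : Ω := ⨆ n, lam n with hL
  have hlim : Tendsto lam atTop (𝓝 L) := tendsto_atTop_ciSup hmono (bddAbove_seq lam)
  have hle : ∀ n, lam n ≤ L := fun n => le_ciSup (bddAbove_seq lam) n
  refine ⟨ix '' (⋃ n, D (lam n)), (countable_iUnion fun n => hD _).image _, fun s => ?_⟩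
  obtain ⟨i, hi⟩ := hcov (trunc hF s L)
  obtain ⟨I, u, h1, h2⟩ := exists_basic (hO i) hi
  -- rational intervals around the values below `L`
  have hlow : ∀ j : Ω, j ∈ I → j < L →
      ∃ pq : ℚ × ℚ, (pq.1 : ℝ) < s.1 j ∧ s.1 j < pq.2 ∧ Ioo (pq.1 : ℝ) pq.2 ⊆ u j := by
    intro j hj hjL
    have hmem : s.1 j ∈ u j := by
      have := (h1 j hj).2
      simpa [trunc, min_eq_left hjL.le] using this
    obtain ⟨l, r, ⟨hl, hr⟩, hsub⟩ := mem_nhds_iff_exists_Ioo_subset.1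
      ((h1 j hj).1.mem_nhds hmem)
    obtain ⟨p, hp1, hp2⟩ := exists_rat_btwn hl
    obtain ⟨q, hq1, hq2⟩ := exists_rat_btwn hr
    exact ⟨(p, q), hp2, hq1, fun t ht => hsub ⟨hp1.trans ht.1, ht.2.trans hq2⟩⟩
  choose! pq hpq1 hpq2 hpq3 using hlow
  have hhigh : ∀ᶠ t in 𝓝 (s.1 L), ∀ j ∈ I, L ≤ j → t ∈ u j := by
    rw [eventually_all_finset]
    intro j hj
    by_cases hjL : L ≤ j
    · have hmem : s.1 L ∈ u j := by
        have := (h1 j hj).2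
        simpa [trunc, min_eq_right hjL] using this
      filter_upwards [(h1 j hj).1.mem_nhds hmem] with t ht _ using ht
    · exact Eventually.of_forall fun t h => absurd h hjL
  obtain ⟨l, r, ⟨hl, hr⟩, hsub⟩ := mem_nhds_iff_exists_Ioo_subset.1 hhigh
  obtain ⟨p, hp1, hp2⟩ := exists_rat_btwn hl
  obtain ⟨q, hq1, hq2⟩ := exists_rat_btwn hr
  have hev1 : ∀ᶠ n in atTop, (p : ℝ) < s.1 (lam n) :=
    ((s.2.2.1.tendsto L).comp hlim).eventually (lt_mem_nhds hp2)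
  have hev2 : ∀ᶠ n in atTop, ∀ j ∈ I, j < L → j ≤ lam n := by
    rw [eventually_all_finset]
    intro j _
    by_cases hjL : j < L
    · filter_upwards [hlim.eventually (lt_mem_nhds hjL)] with n hn _ using hn.le
    · exact Eventually.of_forall fun n h => absurd h hjL
  obtain ⟨n, hn1, hn2⟩ := (hev1.and hev2).exists
  let Γ : Set (Ω × ℚ × ℚ) :=
    insert (lam n, p, q) ((fun j => (j, pq j)) '' {j | j ∈ I ∧ j < L})
  have hd : (Γ, q) ∈ D (lam n) := by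
    refine ⟨⟨?_, ?_⟩, mem_univ _⟩
    · exact ((I.finite_toSet.subset fun j hj => hj.1).image _).insert _
    · rintro _ (rfl | ⟨j, hj, rfl⟩)
      · exact ⟨mem_Iic.2 le_rfl, mem_univ _⟩
      · exact ⟨hn2 j hj.1 hj.2, mem_univ _⟩
  obtain ⟨α, hα⟩ := bdd_set I.countable_toSet
  have hgood : NN F (Γ, q) α ⊆ O i := by
    rintro s' ⟨hs1, hs2⟩
    refine h2 s' fun j hj => ?_
    by_cases hjL : j < L
    · have := hs1 (j, pq j) (Or.inr ⟨j, ⟨hj, hjL⟩, rfl⟩)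
      exact hpq3 j hj hjL this
    · have h3 := hs1 (lam n, p, q) (Or.inl rfl)
      have h4 : s'.1 (lam n) ≤ s'.1 j := s'.2.1 ((hle n).trans (not_lt.1 hjL))
      have h5 : s'.1 j ≤ s'.1 α := s'.2.1 (hα j hj).le
      refine hsub ⟨?_, ?_⟩ j hj (not_lt.1 hjL)
      · exact hp1.trans (h3.1.trans_le h4)
      · exact (h5.trans_lt hs2).trans hq2
  refine ⟨ix (Γ, q), ⟨_, mem_iUnion.2 ⟨n, hd⟩, rfl⟩, hal (Γ, q) ⟨α, i, hgood⟩ ⟨?_, ?_⟩⟩
  · rintro _ (rfl | ⟨j, hj, rfl⟩)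
    · exact ⟨hn1, (s.2.1 (hle n)).trans_lt hq1⟩
    · exact ⟨hpq1 j hj.1 hj.2, hpq2 j hj.1 hj.2⟩
  · have h6 : al (Γ, q) ≤ L := by
      have := hg2 (lam n) _ hd
      rw [← hlam] at this
      exact this.le.trans (hle _)
    exact (s.2.1 h6).trans_lt hq1

theorem nonempty_Y {F : Ω → Set ℝ} (hF : Forb F) : ∃ s : YY F, ∀ a, s.1 a ≤ 0 := by
  obtain ⟨t, ht, -, ht0⟩ := hF.codense (-1) 0 (by norm_num)
  exact ⟨⟨fun _ => t, monotone_const, continuous_const, fun a h => ht (hF.anti bot_le h)⟩,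
    fun _ => ht0.le⟩

theorem lindelof_Y {F : Ω → Set ℝ} (hF : Forb F) : LindelofSpace (YY F) := by
  refine ⟨isLindelof_of_countable_subcover fun {ι} U hU hcov => ?_⟩
  obtain ⟨s₀, -⟩ := nonempty_Y hF
  obtain ⟨i₀, -⟩ := mem_iUnion.1 (hcov (mem_univ s₀))
  haveI : Nonempty ι := ⟨i₀⟩
  obtain ⟨S, hS, h⟩ := countable_subcover hF U hU (fun s => mem_iUnion.1 (hcov (mem_univ s)))
  exact ⟨S, hS, fun s _ => by
    obtain ⟨i, hi, hs⟩ := h s
    exact mem_biUnion hi hs⟩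

theorem dimLE_zero_Y {F : Ω → Set ℝ} (hF : Forb F) : DimLE (YY F) 0 := by
  refine dimLE_zero_of_clopen fun A _ hopen hcov => ?_
  have hloc : ∀ x : YY F, ∃ C, IsClopen C ∧ x ∈ C ∧ ∃ U ∈ A, C ⊆ U := by
    intro x
    have : x ∈ ⋃₀ A := by rw [hcov]; trivial
    obtain ⟨U, hU, hxU⟩ := this
    obtain ⟨C, h1, h2, h3⟩ := exists_clopen_nhd_Y hF (hopen U hU) hxU
    exact ⟨C, h1, h2, U, hU, h3⟩
  choose C hC1 hC2 hC3 using hloc
  obtain ⟨s₀, -⟩ := nonempty_Y hF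
  haveI : Nonempty (YY F) := ⟨s₀⟩
  obtain ⟨S, hS, h⟩ := countable_subcover hF C (fun x => (hC1 x).isOpen) (fun x => ⟨x, hC2 x⟩)
  obtain ⟨x₀, hx₀, -⟩ := h s₀
  obtain ⟨e, he⟩ := hS.exists_eq_range ⟨x₀, hx₀⟩
  refine ⟨fun n => C (e n), fun n => hC1 _, eq_univ_of_forall fun s => ?_, fun n => hC3 _⟩
  obtain ⟨x, hx, hs⟩ := h s
  rw [he] at hx
  obtain ⟨n, rfl⟩ := hx
  exact mem_iUnion.2 ⟨n, hs⟩

/-- Evaluation is jointly continuous. -/
theorem continuous_eval_Y {F : Ω → Set ℝ} : Continuous (fun z : Ω × YY F => z.2.1 z.1) := by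
  rw [continuous_iff_continuousAt]
  rintro ⟨a, s⟩
  rw [ContinuousAt, tendsto_order]
  constructor
  · intro t ht
    have hwf : WellFounded ((· < ·) : Ω → Ω → Prop) := (IsOm.wf (Ω := Ω)).wf
    have hne : {b | t < s.1 b}.Nonempty := ⟨a, ht⟩
    set b := hwf.min _ hne with hb
    have hbt : t < s.1 b := hwf.min_mem _ hne
    have h1 : {b | t < s.1 b} ∈ 𝓝 a := (isOpen_lt continuous_const s.2.2.1).mem_nhds ht
    have h2 : {s' : YY F | t < s'.1 b} ∈ 𝓝 s :=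
      (isOpen_lt continuous_const (continuous_evalAt b)).mem_nhds hbt
    filter_upwards [prod_mem_nhds h1 h2] with z hz
    have h3 : b ≤ z.1 := not_lt.1 (hwf.not_lt_min _ hz.1)
    exact lt_of_lt_of_le hz.2 (z.2.2.1 h3)
  · intro t ht
    have h1 : Iic a ∈ 𝓝 a := (isOpen_Iic' a).mem_nhds (mem_Iic.2 le_rfl)
    have h2 : {s' : YY F | s'.1 a < t} ∈ 𝓝 s :=
      (isOpen_lt (continuous_evalAt a) continuous_const).mem_nhds ht
    filter_upwards [prod_mem_nhds h1 h2] with z hz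
    exact lt_of_le_of_lt (z.2.2.1 hz.1) hz.2

end Pool.Agent.P.MP_bf7e1e_gt
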