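import Pool.Agent.P.MP_bf7e1e_gt.Basic

/-! The tree of finite words, heads and exits of ultrafilters, injective choice. -/

namespace Pool.Agent.P.MP_bf7e1e_gt.Sq

open Set Filter Topology Cardinal

/-- Nodes of the tree; the newest letter is the head of the list. -/
abbrev I : Type := List (ℕ × ℕ)

/-- The longest common suffix. -/
def meet : I → I → I
  | [], _ => []
  | e :: h, y => if e :: h <:+ y then e :: h else meet h y

theorem suf_meet {σ x y : I} : σ <:+ meet x y ↔ σ <:+ x ∧ σ <:+ y := by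
  induction x with
  | nil =>
    simp only [meet, List.suffix_nil]
    exact ⟨fun h => ⟨h, h ▸ List.nil_suffix⟩, fun h => h.1⟩
  | cons e h ih =>
    rw [meet]
    split_ifs with hc
    · exact ⟨fun h1 => ⟨h1, h1.trans hc⟩, fun h1 => h1.1⟩
    · rw [ih, List.suffix_cons_iff]
      exact ⟨fun h1 => ⟨Or.inr h1.1, h1.2⟩,
        fun h1 => ⟨h1.1.resolve_left fun h2 => hc (h2 ▸ h1.2), h1.2⟩⟩

theorem meet_left (x y : I) : meet x y <:+ x := (suf_meet.1 List.suffix_rfl).1

theorem meet_right (x y : I) : meet x y <:+ y := (suf_meet.1 List.suffix_rfl).2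

theorem suf_eq {σ τ x : I} (h1 : σ <:+ x) (h2 : τ <:+ x) (h : σ.length = τ.length) : σ = τ :=
  (List.suffix_of_suffix_length_le h1 h2 h.le).eq_of_length h

theorem suf_step {h l x : I} {g : ℕ × ℕ} (h1 : h <:+ l) (h2 : l <:+ x) (h3 : g :: h <:+ x) :
    l = h ∨ g :: h <:+ l := by
  rcases le_or_gt l.length h.length with hl | hl
  · exact Or.inl (h1.eq_of_length_le hl).symm
  · exact Or.inr (List.suffix_of_suffix_length_le h3 h2 hl)

theorem meet_eq {h x y : I} (hx : h <:+ x) (hy : h <:+ y)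
    (hg : ∀ g, g :: h <:+ x → ¬ g :: h <:+ y) : meet x y = h := by
  obtain ⟨l, hl⟩ := suf_meet.2 ⟨hx, hy⟩
  rcases List.eq_nil_or_concat l with rfl | ⟨l', g, rfl⟩
  · exact hl.symm
  · have : g :: h <:+ meet x y := ⟨l', by rw [← hl]; simp⟩
    exact absurd (suf_meet.1 this).2 (hg g (suf_meet.1 this).1)

/-- The time stamp of a node. -/
noncomputable def tm : I → ℝ
  | [] => 0
  | e :: h => min 1 (tm h + (1 / 2) ^ e.1)

theorem tm_mem (x : I) : tm x ∈ Icc (0 : ℝ) 1 := by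
  induction x with
  | nil => exact ⟨le_rfl, zero_le_one⟩
  | cons e h ih => exact ⟨le_min zero_le_one (add_nonneg ih.1 (by positivity)), min_le_left _ _⟩

theorem tm_mono {σ x : I} (h : σ <:+ x) : tm σ ≤ tm x := by
  induction x with
  | nil => rw [List.suffix_nil.1 h]
  | cons e t ih =>
    rcases List.suffix_cons_iff.1 h with rfl | h
    · exact le_rfl
    · exact (ih h).trans (le_min (tm_mem t).2 (le_add_of_nonneg_right (by positivity)))

/-- Sets of nodes closed under passing to ancestors. -/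
def Cl (H : Set I) : Prop := ∀ σ τ, σ <:+ τ → τ ∈ H → σ ∈ H

open Classical in
/-- The first ancestor outside `H`. -/
noncomputable def ex (H : Set I) : I → I
  | [] => []
  | e :: h => if h ∈ H then e :: h else ex H h

theorem ex_suf (H : Set I) (x : I) : ex H x <:+ x := by
  induction x with
  | nil => exact List.suffix_rfl
  | cons e h ih =>
    rw [ex]
    split_ifs
    · exact List.suffix_rfl
    · exact ih.trans (List.suffix_cons _ _)

theorem suf_ex {H : Set I} (hH : Cl H) {σ x : I} (h : σ <:+ x) (hσ : σ ∈ H) : σ <:+ ex H x := by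
  induction x with
  | nil => exact h
  | cons e t ih =>
    rw [ex]
    split_ifs with hc
    · exact h
    · exact ih ((List.suffix_cons_iff.1 h).resolve_left fun h2 =>
        hc (hH _ _ (List.suffix_cons e t) (h2 ▸ hσ)))

theorem ex_mem {H : Set I} {x : I} (h : ex H x ∈ H) : ex H x = x := by
  induction x with
  | nil => rfl
  | cons e t ih =>
    rw [ex] at h ⊢
    split_ifs at h ⊢ with hc
    · rfl
    · exact absurd (ih h ▸ h) hc

theorem ex_eq {H : Set I} (hH : Cl H) {σ x : I} (h : σ <:+ x) (hσ : σ ∉ H) : ex H x = ex H σ := by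
  induction x with
  | nil => rw [List.suffix_nil.1 h]
  | cons e t ih =>
    rcases List.suffix_cons_iff.1 h with rfl | h
    · rfl
    · rw [ex, if_neg fun ht => hσ (hH _ _ h ht), ih h]

theorem mem_bind {α β : Type} {u : Ultrafilter α} {m : α → Ultrafilter β} {S : Set β} :
    S ∈ u.bind m ↔ {a | S ∈ m a} ∈ u := Filter.mem_bind'

/-- The head of an ultrafilter on the tree. -/
def hd (p : Ultrafilter I) : Set I := {σ | {x | σ <:+ x} ∈ p}

/-- The exit ultrafilter. -/
noncomputable def eps (p : Ultrafilter I) : Ultrafilter I := p.map (ex (hd p))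

theorem cl_hd (p : Ultrafilter I) : Cl (hd p) := fun _ _ h hτ =>
  mem_of_superset hτ fun _ hx => h.trans hx

theorem anc_mem (q : Ultrafilter I) (σ : I) : {y | ∀ ρ, ρ <:+ σ → ρ <:+ y → ρ ∈ hd q} ∈ q := by
  have h1 : ∀ ρ : I, {y | ρ <:+ y → ρ ∈ hd q} ∈ q := fun ρ => by
    by_cases h : ρ ∈ hd q
    · exact univ_mem' fun _ _ => h
    · exact mem_of_superset (Ultrafilter.compl_mem_iff_notMem.2 h) fun _ hy h2 => absurd h2 hy
  induction σ with
  | nil =>
    refine mem_of_superset (h1 []) fun y hy ρ h2 h3 => ?_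
    obtain rfl := List.suffix_nil.1 h2
    exact hy h3
  | cons e t ih =>
    refine mem_of_superset (inter_mem ih (h1 (e :: t))) fun y hy ρ h2 h3 => ?_
    rcases List.suffix_cons_iff.1 h2 with rfl | h2
    exacts [hy.2 h3, hy.1 ρ h2 h3]

theorem tm_bdd (H : Set I) : BddAbove (tm '' H) := ⟨1, by rintro _ ⟨x, -, rfl⟩; exact (tm_mem x).2⟩

/-- The time of the meet converges along the product filter. -/
def Tc (p q : Ultrafilter I) : Prop :=
  ∃ t, Tendsto (fun z : I × I => tm (meet z.1 z.2)) ((p : Filter I) ×ˢ (q : Filter I)) (𝓝 t)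

theorem tc_of {p q : Ultrafilter I} {P Q : Set I} (hP : P ∈ p) (hQ : Q ∈ q)
    (h : ∀ x ∈ P, ∀ y ∈ Q, meet x y ∈ hd p ∩ hd q) : Tc p q := by
  have hne : (tm '' (hd p ∩ hd q)).Nonempty :=
    ⟨_, [], ⟨univ_mem' fun _ => List.nil_suffix, univ_mem' fun _ => List.nil_suffix⟩, rfl⟩
  refine ⟨sSup (tm '' (hd p ∩ hd q)), tendsto_order.2 ⟨fun a ha => ?_, fun a ha => ?_⟩⟩
  · obtain ⟨_, ⟨σ, hσ, rfl⟩, h1⟩ := exists_lt_of_lt_csSup hne ha
    filter_upwards [prod_mem_prod hσ.1 hσ.2] with z hz using h1.trans_le (tm_mono (suf_meet.2 hz))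
  · filter_upwards [prod_mem_prod hP hQ] with z hz
    exact (le_csSup (tm_bdd _) ⟨_, h _ hz.1 _ hz.2, rfl⟩).trans_lt ha

theorem tc_pure_left (x : I) (q : Ultrafilter I) : Tc (pure x) q :=
  tc_of (P := {x}) rfl (anc_mem q x) fun _ h y hy => by
    obtain rfl := h
    exact ⟨meet_left _ _, hy _ (meet_left _ _) (meet_right _ _)⟩

theorem tc_pure_right (p : Ultrafilter I) (y : I) : Tc p (pure y) :=
  tc_of (Q := {y}) (anc_mem p y) rfl fun x hx _ h => by
    obtain rfl := h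
    exact ⟨hx _ (meet_right _ _) (meet_left _ _), meet_right _ _⟩

theorem tc_of_ne {p q : Ultrafilter I} (h : eps p ≠ eps q) : Tc p q := by
  by_cases h1 : ∃ σ ∈ hd p, σ ∉ hd q
  · obtain ⟨σ, h1, h2⟩ := h1
    refine tc_of h1 (anc_mem q σ) fun x hx y hy => ?_
    have h3 : meet x y <:+ σ := (List.suffix_or_suffix_of_suffix (meet_left x y) hx).resolve_right
      fun h4 => h2 (hy σ List.suffix_rfl (h4.trans (meet_right _ _)))
    exact ⟨cl_hd p _ _ h3 h1, hy _ h3 (meet_right _ _)⟩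
  by_cases h2 : ∃ σ ∈ hd q, σ ∉ hd p
  · obtain ⟨σ, h1, h2⟩ := h2
    refine tc_of (anc_mem p σ) h1 fun x hx y hy => ?_
    have h3 : meet x y <:+ σ := (List.suffix_or_suffix_of_suffix (meet_right x y) hy).resolve_right
      fun h4 => h2 (hx σ List.suffix_rfl (h4.trans (meet_left _ _)))
    exact ⟨hx _ h3 (meet_left _ _), cl_hd q _ _ h3 h1⟩
  push Not at h1 h2
  have e : hd q = hd p := Subset.antisymm h2 h1
  obtain ⟨E, hE, hE'⟩ : ∃ E, E ∈ eps p ∧ E ∉ eps q := by
    by_contra hc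
    push Not at hc
    exact h (Ultrafilter.eq_of_le hc).symm
  rw [← Ultrafilter.compl_mem_iff_notMem, eps, e] at hE'
  refine tc_of (P := ex (hd p) ⁻¹' E) (Q := ex (hd p) ⁻¹' Eᶜ) hE hE' fun x hx y hy => ?_
  rw [e, inter_self]
  by_contra hc
  exact hy (by
    rw [ex_eq (cl_hd p) (meet_right x y) hc, ← ex_eq (cl_hd p) (meet_left x y) hc]; exact hx)

theorem eq_pure_of_eps {p : Ultrafilter I} {τ : I} (h : eps p = pure τ) : p = pure τ := by
  have h1 : ex (hd p) ⁻¹' {τ} ∈ p := by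
    rw [← Ultrafilter.mem_map]
    exact (h ▸ rfl : {τ} ∈ eps p)
  have h2 : τ ∈ hd p := mem_of_superset h1 fun x (hx : ex _ x = τ) => hx ▸ ex_suf _ x
  refine Ultrafilter.eq_of_le (le_pure_iff.2 (mem_of_superset h1 fun x (hx : ex _ x = τ) => ?_))
  exact (ex_mem (hx ▸ h2)).symm.trans hx

theorem bind_map {α β γ : Type} (u : Ultrafilter α) (φ : α → β) (m : β → Ultrafilter γ) :
    (u.map φ).bind m = u.bind (m ∘ φ) :=
  Ultrafilter.ext fun _ => by rw [mem_bind, mem_bind]; rfl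

theorem map_cof {u : Ultrafilter ℕ} (hu : ↑u ≤ (cofinite : Filter ℕ)) {φ : ℕ → ℕ}
    (hφ : Function.Injective φ) : ↑(u.map φ) ≤ (cofinite : Filter ℕ) :=
  hφ.tendsto_cofinite.mono_left hu

/-- Cluster points of sequences stay in a family of the form used below. -/
theorem acc_mem {A : Set (Ultrafilter I)} {J : Type} {k c : J → Ultrafilter I}
    (hc : Function.Injective c)
    (hA : ∀ η : ℕ → Ultrafilter I, Function.Injective η →
      ∃ u : Ultrafilter ℕ, ↑u ≤ (cofinite : Filter ℕ) ∧ u.bind η ∈ A)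
    {X : Set (Ultrafilter I)}
    (hX : ∀ p, p ∈ X ↔ (∃ x, p = pure x) ∨ eps p ∈ A ∨ ∃ j, p = k j ∧ eps p = c j)
    (s : ℕ → Ultrafilter I) (hs : ∀ n, s n ∈ X) :
    ∃ u : Ultrafilter ℕ, ↑u ≤ (cofinite : Filter ℕ) ∧ u.bind s ∈ X := by
  classical
  obtain ⟨a, φ, hφ, ha⟩ := CompactSpace.tendsto_subseq fun n (σ : I) => decide (σ ∈ hd (s n))
  set H : Set I := {σ | a σ = true}
  have hH : ∀ σ, ∀ᶠ n in cofinite, σ ∈ hd (s (φ n)) ↔ σ ∈ H := fun σ => by
    rw [Nat.cofinite_eq_atTop]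
    have := (tendsto_pi_nhds.1 ha σ)
    rw [nhds_discrete, tendsto_pure] at this
    filter_upwards [this] with n hn
    simp only [Function.comp] at hn
    simp [H, ← hn]
  suffices h : ∃ u : Ultrafilter ℕ, ↑u ≤ (cofinite : Filter ℕ) ∧ u.bind (s ∘ φ) ∈ X by
    obtain ⟨u, hu, h⟩ := h
    exact ⟨u.map φ, map_cof hu hφ.injective, by rwa [bind_map]⟩
  replace hs : ∀ n, (s ∘ φ) n ∈ X := fun n => hs _
  change ∀ σ, ∀ᶠ n in cofinite, σ ∈ hd ((s ∘ φ) n) ↔ σ ∈ H at hH
  generalize s ∘ φ = s at hs hH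
  have h1 : ∀ u : Ultrafilter ℕ, ↑u ≤ (cofinite : Filter ℕ) → hd (u.bind s) = H := fun u hu => by
    ext σ
    rw [hd, mem_ofPred_eq, mem_bind]
    refine ⟨fun h => ?_, fun h => mem_of_superset (hu (hH σ)) fun n hn => hn.2 h⟩
    obtain ⟨n, hn, hn'⟩ := u.nonempty_of_mem (inter_mem h (hu (hH σ)))
    exact hn'.1 hn
  set η : ℕ → Ultrafilter I := fun n => (s n).map (ex H)
  have h2 : ∀ u : Ultrafilter ℕ, ↑u ≤ (cofinite : Filter ℕ) → eps (u.bind s) = u.bind η :=
    fun u hu => by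
      rw [eps, h1 u hu]
      exact Ultrafilter.ext fun S => by rw [Ultrafilter.mem_map, mem_bind, mem_bind]; rfl
  rcases (range η).finite_or_infinite with hf | hf
  swap
  · have hψ : ∀ n, ∃ m, η m = hf.natEmbedding _ n := fun n => (hf.natEmbedding _ n).2
    choose ψ hψ using hψ
    have hi : Function.Injective (η ∘ ψ) := fun n m h => (hf.natEmbedding _).injective
      (Subtype.ext (by rw [← hψ, ← hψ]; exact h))
    obtain ⟨v, hv, hvA⟩ := hA _ hi
    have hu := map_cof hv (Function.Injective.of_comp hi)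
    exact ⟨v.map ψ, hu, (hX _).2 (Or.inr (Or.inl (by rwa [h2 _ hu, bind_map])))⟩
  have hu : ↑(hyperfilter ℕ) ≤ (cofinite : Filter ℕ) := hyperfilter_le_cofinite
  refine ⟨hyperfilter ℕ, hu, ?_⟩
  obtain ⟨η₀, -, h3⟩ := Ultrafilter.eq_pure_of_finite_mem hf
    (f := (hyperfilter ℕ).map η) (Ultrafilter.mem_map.2 (univ_mem' fun n => mem_range_self n))
  have hM : {n | η n = η₀} ∈ hyperfilter ℕ := by
    have : {η₀} ∈ (hyperfilter ℕ).map η := h3 ▸ rfl
    exact this
  have hconst : ∀ (t : ℕ → Ultrafilter I) t₀, {n | t n = t₀} ∈ hyperfilter ℕ →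
      (hyperfilter ℕ).bind t = t₀ := fun t t₀ h => (Ultrafilter.eq_of_le fun S hS =>
    mem_bind.2 (mem_of_superset h fun n (hn : t n = t₀) => show S ∈ t n from hn ▸ hS))
  have h4 : eps ((hyperfilter ℕ).bind s) = η₀ := by rw [h2 _ hu, hconst η η₀ hM]
  by_cases h5 : ∃ τ, η₀ = pure τ
  · obtain ⟨τ, rfl⟩ := h5
    exact (hX _).2 (Or.inl ⟨τ, eq_pure_of_eps h4⟩)
  have hcl : Cl H := h1 _ hu ▸ cl_hd _
  have h6 : ∀ n, η n = η₀ → eps (s n) = η₀ := fun n hn => by
    rw [eps, ← hn]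
    congr 2
    ext σ
    refine ⟨fun h => by_contra fun h' => h5 ⟨ex H σ, ?_⟩, fun h => ?_⟩
    · rw [← hn]
      exact Ultrafilter.eq_of_le (le_pure_iff.2 (Ultrafilter.mem_map.2
        (mem_of_superset h fun x hx => ex_eq hcl hx h')))
    · have h7 : {x | σ <:+ x} ∈ eps ((hyperfilter ℕ).bind s) := by
        rw [eps, h1 _ hu]
        rw [← h1 _ hu] at h
        exact Ultrafilter.mem_map.2 (mem_of_superset h fun x hx => suf_ex hcl hx (h1 _ hu ▸ h))
      rw [h4, ← hn] at h7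
      exact mem_of_superset (Ultrafilter.mem_map.1 h7) fun x hx =>
        List.IsSuffix.trans hx (ex_suf _ _)
  by_cases h8 : η₀ ∈ A
  · exact (hX _).2 (Or.inr (Or.inl (h4 ▸ h8)))
  have h9 : ∀ n, η n = η₀ → ∃ j, s n = k j ∧ η₀ = c j := fun n hn => by
    rcases (hX _).1 (hs n) with ⟨x, hx⟩ | h | ⟨j, h, h'⟩
    · exact absurd ⟨ex H x, by rw [← hn]; simp only [η, hx]; rfl⟩ h5
    · exact absurd (h6 n hn ▸ h) h8
    · exact ⟨j, h, (h6 n hn).symm.trans h'⟩
  obtain ⟨n, hn⟩ := (hyperfilter ℕ).nonempty_of_mem hM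
  obtain ⟨j, hj, hj'⟩ := h9 n hn
  rw [hconst s (s n) (mem_of_superset hM fun m hm => by
    obtain ⟨i, hi, hi'⟩ := h9 m hm
    rw [mem_ofPred_eq, hi, hj, hc (hi'.symm.trans hj')])]
  exact hs n

theorem inj_choice {ι α : Type} (P : ι → Set α) (hP : ∀ i, Cardinal.mk ι ≤ Cardinal.mk (P i)) :
    ∃ p : ι → α, Function.Injective p ∧ ∀ i, p i ∈ P i := by
  classical
  obtain ⟨e⟩ := Cardinal.eq.1 (mk_ord_toType (Cardinal.mk ι))
  have hex : ∀ k (prev : ∀ j, j < k → α), ∃ x, x ∈ P (e k) ∧ ∀ j (h : j < k), prev j h ≠ x := by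
    intro k prev
    by_contra! hcon
    have hsub : P (e k) ⊆ range fun j : Iio k => prev j j.2 := fun x hx =>
      let ⟨j, hj, hjx⟩ := hcon x hx
      ⟨⟨j, hj⟩, hjx⟩
    exact absurd ((hP _).trans ((mk_le_mk_of_subset hsub).trans mk_range_le))
      (mk_Iio_toType_ord_lt k).not_ge
  choose step h1 h2 using hex
  let p := wellFounded_lt.fix step
  have hp : ∀ k, p k = step k fun j _ => p j := wellFounded_lt.fix_eq step
  have hi : Function.Injective p := fun i j hij => by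
    rcases lt_trichotomy i j with h | h | h
    · exact absurd (hij.trans (hp j)) (h2 j (fun j _ => p j) i h)
    · exact h
    · exact absurd (hij.symm.trans (hp i)) (h2 i (fun j _ => p j) j h)
  refine ⟨p ∘ e.symm, hi.comp e.symm.injective, fun i => ?_⟩
  have := h1 (e.symm i) fun j _ => p j
  rwa [← hp, e.apply_symm_apply] at this

/-- Free ultrafilters on the natural numbers. -/
abbrev Fr : Type := {u : Ultrafilter ℕ // ↑u ≤ (cofinite : Filter ℕ)}

theorem mk_seq_le : Cardinal.mk (ℕ → Ultrafilter I) ≤ Cardinal.mk Fr := by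
  refine mk_le_of_surjective (f := fun (u : Fr) n =>
    u.1.map fun k => (Denumerable.ofNat (List I) k).getD n []) fun η => ?_
  obtain ⟨W, hW⟩ := Ultrafilter.exists_le ((Filter.pi fun n => (η n : Filter I)) ×ˢ atTop (α := ℕ))
  let t : (ℕ → I) × ℕ → List I := fun z => (List.range z.2).map z.1
  refine ⟨⟨W.map fun z => Encodable.encode (t z), ?_⟩, funext fun n => ?_⟩
  · refine Encodable.encode_injective.tendsto_cofinite.comp
      (le_cofinite_iff_eventually_ne.2 fun l => eventually_map.2 ?_)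
    filter_upwards [hW (tendsto_snd.eventually (eventually_gt_atTop l.length))] with z hz h
    simp [← h, t] at hz
  · refine Ultrafilter.eq_of_le (((tendsto_eval_pi _ n).comp (tendsto_fst.mono_left hW)).congr' ?_)
    filter_upwards [hW (tendsto_snd.eventually (eventually_gt_atTop n))] with z hz
    simp [t, hz]

theorem mk_fr_le {η : ℕ → Ultrafilter I} (hη : Function.Injective η) :
    Cardinal.mk Fr ≤ Cardinal.mk {p | ∃ u : Fr, p = u.1.bind η} := by
  have := (infinite_range_of_injective hη).to_subtype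
  obtain ⟨U, hU, hUo, hd⟩ := exists_seq_infinite_isOpen_pairwise_disjoint (range η)
  have h : ∀ n, ∃ k B, (⟨η k, k, rfl⟩ : range η) ∈ U n ∧ B ∈ η k ∧
      ∀ p : range η, B ∈ p.1 → p ∈ U n := fun n => by
    obtain ⟨⟨_, k, rfl⟩, hk⟩ := (hU n).nonempty
    obtain ⟨V, hV, hV'⟩ := isOpen_induced_iff.1 (hUo n)
    obtain ⟨_, ⟨B, rfl⟩, h1, h2⟩ := ultrafilterBasis_is_basis.exists_subset_of_mem_open
      (show η k ∈ V from (hV' ▸ hk : _ ∈ Subtype.val ⁻¹' V)) hV
    exact ⟨k, B, hk, h1, fun p hp => hV' ▸ h2 hp⟩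
  choose k B h1 h2 h3 using h
  have h4 : ∀ n m, B m ∈ η (k n) → m = n := fun n m h => by_contra fun hne =>
    disjoint_left.1 (hd hne) (h3 m ⟨_, k n, rfl⟩ h) (h1 n)
  have h5 : ∀ n, disjointed B n ∈ η (k n) := fun n => by
    rw [disjointed_eq_inter_compl]
    refine inter_mem (h2 n) ((biInter_mem (finite_lt_nat n)).2 fun m hm => ?_)
    exact Ultrafilter.compl_mem_iff_notMem.2 fun h => hm.ne (h4 n m h)
  have hk : Function.Injective k := fun n m h => h4 m n (h ▸ h2 n)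
  refine mk_le_of_injective (f := fun u => ⟨_, ⟨u.1.map k, map_cof u.2 hk⟩, rfl⟩) fun u v h => ?_
  refine Subtype.ext (Ultrafilter.eq_of_le fun A hA => ?_)
  have h6 : (⋃ n ∈ A, disjointed B n) ∈ (v.1.map k).bind η := by
    rw [bind_map, mem_bind]
    exact mem_of_superset hA fun n hn => mem_of_superset (h5 n) (subset_biUnion_of_mem hn)
  rw [← show (u.1.map k).bind η = (v.1.map k).bind η from congrArg Subtype.val h, bind_map,
    mem_bind] at h6
  refine mem_of_superset h6 fun n hn => ?_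
  obtain ⟨x, hx, hx'⟩ := (η (k n)).nonempty_of_mem (inter_mem hn (h5 n))
  obtain ⟨m, hm, hx⟩ := mem_iUnion₂.1 hx
  by_contra hc
  exact disjoint_left.1 (disjoint_disjointed B fun h : m = n => hc (h ▸ hm)) hx hx'

theorem exists_ch {J : Type} (hJ : Cardinal.mk J ≤ continuum) (e : J → ℕ → Ultrafilter I)
    (he : ∀ j, Function.Injective (e j)) : ∃ (A : Bool → Set (Ultrafilter I))
      (c : J → Ultrafilter I), Disjoint (A false) (A true) ∧ Function.Injective c ∧
      (∀ b j, c j ∉ A b) ∧ (∀ j, ∃ u : Fr, c j = u.1.bind (e j)) ∧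
      ∀ b (η : ℕ → Ultrafilter I), Function.Injective η →
        ∃ u : Ultrafilter ℕ, ↑u ≤ (cofinite : Filter ℕ) ∧ u.bind η ∈ A b := by
  let S := {η : ℕ → Ultrafilter I // Function.Injective η}
  let sq : (S × Bool) ⊕ J → S := Sum.elim Prod.fst fun j => ⟨e j, he j⟩
  have h2 : continuum ≤ Cardinal.mk (ℕ → Ultrafilter I) := by
    rw [← power_def, mk_nat, ← two_power_aleph0]
    refine power_le_power_right (two_le_iff.2 ⟨pure [], pure [(0, 0)], ?_⟩)
    exact fun h => absurd (Ultrafilter.pure_injective h) (by simp)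
  have h3 := aleph0_le_continuum.trans h2
  have h1 : Cardinal.mk ((S × Bool) ⊕ J) ≤ Cardinal.mk (ℕ → Ultrafilter I) := by
    rw [mk_sum, mk_prod, lift_id, lift_id, lift_id, lift_id]
    refine add_le_of_le h3 (mul_le_of_le h3 (mk_subtype_le _) (mk_le_aleph0.trans h3)) (hJ.trans h2)
  obtain ⟨ch, hi, hm⟩ := inj_choice (fun i => {p | ∃ u : Fr, p = u.1.bind (sq i).1})
    fun i => (h1.trans mk_seq_le).trans (mk_fr_le (sq i).2)
  refine ⟨fun b => range fun s => ch (.inl (s, b)), fun j => ch (.inr j), ?_,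
    hi.comp Sum.inr_injective, fun b j ⟨s, h⟩ => by simpa using hi h, fun j => hm (.inr j),
    fun b η hη => ?_⟩
  · exact disjoint_left.2 fun p ⟨s, h⟩ ⟨s', h'⟩ => by simpa using hi (h.trans h'.symm)
  · obtain ⟨u, hu⟩ := hm (.inl (⟨η, hη⟩, b))
    exact ⟨u.1, u.2, _, hu⟩

end Pool.Agent.P.MP_bf7e1e_gt.Sq
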