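import Pool.Agent.P.MP_bf7e1e_gt.Sq1

/-! Relations on pairs of nodes that cannot be killed give closed covers of small order. -/

namespace Pool.Agent.P.MP_bf7e1e_gt.Sq

open Set Filter Topology

variable {K : Type} [MetricSpace K] (γ : ℝ → K) (R : I × I → I × I → Prop)

/-- The point of the curve at the time of the meet. -/
noncomputable def fm (z : I × I) : K := γ (tm (meet z.1 z.2))

/-- A pair of ultrafilters with exit `η`, along which `fm` converges and `R` fails. -/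
def Kill (η : Ultrafilter I) : Prop :=
  ∃ p q, eps p = η ∧ eps q = η ∧ (∃ c, Tendsto (fm γ) ((p : Filter I) ×ˢ (q : Filter I)) (𝓝 c)) ∧
    ∀ P ∈ p, ∀ Q ∈ q, ∃ z ∈ P ×ˢ Q, ∃ z' ∈ P ×ˢ Q, ¬ R z z'

/-- All free ultrafilters on some infinite set of nodes are exits of killing pairs. -/
def Killable : Prop := ∃ e : ℕ → I, Function.Injective e ∧ ∀ u : Fr, Kill γ R (u.1.map e)

/-- Two sequences above `e`, with values near `c`, along which `R` fails. -/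
def Bad (e : I) (c : K) (δ : ℝ) : Prop :=
  ∃ x y : ℕ → I, (∀ k, e <:+ x k) ∧ (∀ k, e <:+ y k) ∧ (∀ k l, dist (fm γ (x k, y l)) c < δ) ∧
    ∀ k l, k < l → ¬ (R (x k, y k) (x k, y l) ∧ R (x k, y l) (x k, y k))

/-- Almost all children of `h` are good at a scale that `γ` respects at step `n`. -/
def Fine (η : ℝ) (h : I) (n : ℕ) (δ : ℝ) : Prop :=
  δ ≤ η ∧ {g | Bad γ R (g :: h) (γ (tm h)) δ}.Finite ∧
    ∀ s ∈ Icc (0 : ℝ) 1, ∀ s' ∈ Icc (0 : ℝ) 1, |s - s'| ≤ (1 / 2) ^ n → dist (γ s) (γ s') < δ / 2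

variable {γ R}

theorem fin_suf (τ : I) : {σ | σ <:+ τ}.Finite :=
  τ.tails.finite_toSet.subset fun _ h => (List.mem_tails _ _).2 h

theorem mem_bm {α β δ : Type} {u : Ultrafilter α} {v : α → Ultrafilter β} {z : α → β → δ}
    {S : Set δ} : (S ∈ u.bind fun r => (v r).map (z r)) ↔ {r | {k | z r k ∈ S} ∈ v r} ∈ u :=
  mem_bind

theorem kill (hγ : Continuous γ) {H : Set I} (hH : Cl H) {σ : ℕ → I} {g : ℕ → ℕ × ℕ}
    (h1 : ∀ r, σ r ∈ H) (h2 : ∀ τ ∈ H, ∀ᶠ r in cofinite, τ <:+ σ r) (h3 : ∀ r, g r :: σ r ∉ H)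
    (h4 : Function.Injective fun r => g r :: σ r)
    (h5 : ∀ r : ℕ, Bad γ R (g r :: σ r) (γ (tm (σ r))) (1 / (r + 1))) : Killable γ R := by
  choose x y hx hy hd1 hR using h5
  refine ⟨_, h4, fun ⟨u, hu⟩ => ?_⟩
  have hex : ∀ r w, g r :: σ r <:+ w → ex H w = g r :: σ r := fun r w h => by
    rw [ex_eq hH h (h3 r), ex, if_pos (h1 r)]
  have he : ∀ z : ℕ → ℕ → I, (∀ r k, g r :: σ r <:+ z r k) →
      eps (u.bind fun r => (hyperfilter ℕ).map (z r)) = u.map fun r => g r :: σ r := by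
    intro z hz
    have : hd (u.bind fun r => (hyperfilter ℕ).map (z r)) = H := by
      ext τ
      rw [hd, mem_ofPred_eq, mem_bm]
      refine ⟨fun h => by_contra fun hτ => ?_, fun h => mem_of_superset (hu (h2 τ h)) fun r hr =>
        univ_mem' fun k => (hr.trans (List.suffix_cons _ _)).trans (hz r k)⟩
      obtain ⟨r, hr, hr'⟩ := u.nonempty_of_mem
        (inter_mem h (hu ((fin_suf τ).preimage h4.injOn).compl_mem_cofinite))
      obtain ⟨k, hk⟩ := (hyperfilter ℕ).nonempty_of_mem hr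
      rcases List.suffix_cons_iff.1
        ((List.suffix_or_suffix_of_suffix hk (hz r k)).resolve_right hr') with h6 | h6
      exacts [hr' (h6 ▸ List.suffix_rfl), hτ (hH _ _ h6 (h1 r))]
    rw [eps, this]
    refine Ultrafilter.eq_of_le fun S hS => Ultrafilter.mem_map.2 (mem_bm.2 ?_)
    refine mem_of_superset (Ultrafilter.mem_map.1 hS) fun r hr => univ_mem' fun k => ?_
    exact show ex H (z r k) ∈ S from hex r _ (hz r k) ▸ hr
  refine ⟨_, _, he x hx, he y hy, ⟨γ (sSup (tm '' H)), Metric.tendsto_nhds.2 fun ε hε => ?_⟩,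
    fun P hP Q hQ => ?_⟩
  · obtain ⟨d, hd0, hd2⟩ := Metric.continuous_iff.1 hγ (sSup (tm '' H)) (ε / 2) (half_pos hε)
    obtain ⟨_, ⟨τ, hτ, rfl⟩, ht⟩ := exists_lt_of_lt_csSup ((nonempty_of_mem (h1 0)).image tm)
      (sub_lt_self (sSup (tm '' H)) hd0)
    have h6 : ∀ ρ ∈ H, τ <:+ ρ → dist (γ (tm ρ)) (γ (sSup (tm '' H))) < ε / 2 := fun ρ h h' => by
      have h7 := le_csSup (tm_bdd H) ⟨ρ, h, rfl⟩
      have h8 := tm_mono h'
      exact hd2 _ (by rw [Real.dist_eq, abs_lt]; constructor <;> linarith)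
    obtain ⟨N, hN⟩ := exists_nat_one_div_lt (half_pos hε)
    have h7 : ∀ z : ℕ → ℕ → I, {w | ∃ r k, τ <:+ σ r ∧ N ≤ r ∧ w = z r k} ∈
        u.bind fun r => (hyperfilter ℕ).map (z r) := fun z => mem_bm.2 (mem_of_superset
      (hu ((h2 τ hτ).and (Nat.cofinite_eq_atTop ▸ eventually_ge_atTop N))) fun r hr =>
        univ_mem' fun k => ⟨r, k, hr.1, hr.2, rfl⟩)
    refine mem_of_superset (prod_mem_prod (h7 x) (h7 y)) ?_
    rintro ⟨_, _⟩ ⟨⟨r, k, h8, h9, rfl⟩, r', l, h8', -, rfl⟩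
    by_cases hm : meet (x r k) (y r' l) ∈ H
    · exact (h6 _ hm (suf_meet.2 ⟨(h8.trans (List.suffix_cons _ _)).trans (hx r k),
        (h8'.trans (List.suffix_cons _ _)).trans (hy r' l)⟩)).trans (half_lt_self hε)
    obtain rfl : r = r' := h4 (show g r :: σ r = g r' :: σ r' by
      rw [← hex r _ (hx r k), ← hex r' _ (hy r' l), ex_eq hH (meet_left _ _) hm,
        ex_eq hH (meet_right _ _) hm])
    have h10 : (1 : ℝ) / (r + 1) ≤ 1 / (N + 1) := Nat.one_div_le_one_div h9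
    exact (dist_triangle _ _ _).trans_lt
      ((add_lt_add ((hd1 r k l).trans (h10.trans_lt hN)) (h6 _ (h1 r) h8)).trans_eq (add_halves ε))
  · obtain ⟨r, hr, hr'⟩ := u.nonempty_of_mem (inter_mem (mem_bm.1 hP) (mem_bm.1 hQ))
    have h6 : {k | x r k ∈ P} ∩ {k | y r k ∈ Q} ∈ hyperfilter ℕ := inter_mem hr hr'
    obtain ⟨k, hk⟩ := (hyperfilter ℕ).nonempty_of_mem h6
    obtain ⟨l, hl, hkl⟩ := (hyperfilter ℕ).nonempty_of_mem
      (inter_mem h6 (hyperfilter_le_cofinite (finite_le_nat k).compl_mem_cofinite))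
    rcases not_and_or.1 (hR r k l (not_le.1 hkl)) with h | h
    exacts [⟨_, mk_mem_prod hk.1 hk.2, _, mk_mem_prod hk.1 hl.2, h⟩,
      ⟨_, mk_mem_prod hk.1 hl.2, _, mk_mem_prod hk.1 hk.2, h⟩]

theorem unif (hγ : Continuous γ) (hR : ¬ Killable γ R) {H : Set I} (hH : Cl H)
    (hc : ∀ σ ∈ H, ∀ τ ∈ H, σ.length ≤ τ.length → σ <:+ τ) {η : ℝ} (hη : 0 < η) :
    ∃ r n : ℕ, ∀ σ ∈ H, (∀ τ ∈ H, τ.length ≤ r → τ <:+ σ) → ∃ δ, Fine γ R η σ n δ := by
  suffices h : ∃ r : ℕ, ∀ σ ∈ H, (∀ τ ∈ H, τ.length ≤ r → τ <:+ σ) →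
      {g | Bad γ R (g :: σ) (γ (tm σ)) (1 / (r + 1))}.Finite by
    obtain ⟨r, h⟩ := h
    have h0 : 0 < min η (1 / (r + 1)) := lt_min hη Nat.one_div_pos_of_nat
    obtain ⟨d, hd0, hd1⟩ := Metric.uniformContinuousOn_iff.1
      (isCompact_Icc.uniformContinuousOn_of_continuous (s := Icc (0 : ℝ) 1) hγ.continuousOn)
      _ (half_pos h0)
    obtain ⟨n, hn⟩ := exists_pow_lt_of_lt_one hd0 (show (1 / 2 : ℝ) < 1 by norm_num)
    refine ⟨r, n, fun σ h1 h2 => ⟨_, min_le_left _ _, (h σ h1 h2).subset ?_,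
      fun s hs s' hs' h3 => hd1 s hs s' hs' (h3.trans_lt hn)⟩⟩
    exact fun g ⟨x, y, h3, h4, h5, h6⟩ =>
      ⟨x, y, h3, h4, fun k l => (h5 k l).trans_le (min_le_right _ _), h6⟩
  by_contra! hcon
  choose σ h1 h2 h3 using hcon
  obtain ⟨e, he, he'⟩ := inj_choice (fun r : ℕ => (· :: σ r) ''
      ({g | Bad γ R (g :: σ r) (γ (tm (σ r))) (1 / (r + 1))} \ {g | g :: σ r ∈ H})) fun r => by
    rw [Cardinal.mk_nat, ← Cardinal.infinite_iff, infinite_coe_iff]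
    refine ((h3 r).sdiff (Set.Subsingleton.finite fun g hg g' hg' => ?_)).image
      fun _ _ _ _ => List.head_eq_of_cons_eq
    exact List.head_eq_of_cons_eq ((hc _ hg _ hg' le_rfl).eq_of_length rfl)
  choose g hg hg' using he'
  refine hR (kill hγ hH h1 (fun τ hτ => ?_) (fun r => (hg r).2) (funext hg' ▸ he) fun r => (hg r).1)
  filter_upwards [Nat.cofinite_eq_atTop ▸ eventually_ge_atTop τ.length] with r hr using h2 r τ hτ hr

theorem Fine.mono {η δ : ℝ} {h : I} {n m : ℕ} (hf : Fine γ R η h n δ) (hm : n ≤ m) :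
    Fine γ R η h m δ :=
  ⟨hf.1, hf.2.1, fun s hs s' hs' h1 => hf.2.2 s hs s' hs'
    (h1.trans (pow_le_pow_of_le_one (by norm_num) (by norm_num) hm))⟩

/-- The child relation of the tree with step function `n`. -/
def Ch (n : I → ℕ) (e h : I) : Prop := tm h < 1 ∧ ∃ i, e = (n h, i) :: h

theorem exists_tree (hγ : Continuous γ) (hR : ¬ Killable γ R) {η : ℝ} (hη : 0 < η) :
    ∃ n : I → ℕ, (∀ σ τ, σ <:+ τ → ∃ δ, Fine γ R η σ (n τ) δ) ∧ (∀ σ τ, σ <:+ τ → n σ ≤ n τ) ∧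
      WellFounded (Ch n) := by
  classical
  have h1 : ∀ h : I, ∃ n, ∀ σ, σ <:+ h → ∃ δ, Fine γ R η σ n δ := fun h => by
    have h0 : ∀ h : I, ∃ n δ, Fine γ R η h n δ := fun h =>
      let ⟨_, n, h1⟩ := unif hγ hR (H := {σ | σ <:+ h}) (fun _ _ => List.IsSuffix.trans)
        (fun _ h1 _ h2 => List.suffix_of_suffix_length_le h1 h2) hη
      ⟨n, h1 h List.suffix_rfl fun _ h2 _ => h2⟩
    choose n hn using h0
    obtain ⟨N, hN⟩ := ((fin_suf h).image n).bddAbove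
    exact ⟨N, fun σ hσ => (hn σ).imp fun δ hδ => hδ.mono (hN ⟨σ, hσ, rfl⟩)⟩
  refine ⟨fun h => Nat.find (h1 h), fun σ τ h => Nat.find_spec (h1 τ) σ h, fun σ τ h =>
    Nat.find_min' _ fun ρ h' => Nat.find_spec (h1 τ) ρ (h'.trans h),
    wellFounded_iff_isEmpty_descending_chain.2 ⟨fun ⟨f, hf⟩ => ?_⟩⟩
  choose h2 i hi using hf
  have h3 : ∀ a b, a ≤ b → f a <:+ f b := fun a b hab => by
    induction hab with
    | refl => exact List.suffix_rfl
    | step _ ih => exact hi _ ▸ ih.trans (List.suffix_cons _ _)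
  have h4 : ∀ a, a ≤ (f a).length := fun a => by
    induction a with
    | zero => exact Nat.zero_le _
    | succ a ih => rw [hi]; exact Nat.succ_le_succ ih
  have hc : ∀ σ ∈ {σ | ∃ a, σ <:+ f a}, ∀ τ ∈ {σ | ∃ a, σ <:+ f a}, σ.length ≤ τ.length →
      σ <:+ τ := fun _ ⟨a, ha⟩ _ ⟨b, hb⟩ => List.suffix_of_suffix_length_le
    (ha.trans (h3 _ _ (le_max_left a b))) (hb.trans (h3 _ _ (le_max_right a b)))
  obtain ⟨r, N, hN⟩ := unif hγ hR (H := {σ | ∃ a, σ <:+ f a})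
    (fun _ _ h ⟨a, ha⟩ => ⟨a, h.trans ha⟩) hc hη
  obtain ⟨M, hM⟩ := h1 (f r)
  have h5 : ∀ a, Nat.find (h1 (f a)) ≤ max N M := fun a => Nat.find_min' _ fun σ hσ => by
    rcases le_total r σ.length with h | h
    · exact (hN σ ⟨a, hσ⟩ fun τ hτ h' => hc τ hτ σ ⟨a, hσ⟩ (h'.trans h)).imp fun δ hδ =>
        hδ.mono (le_max_left _ _)
    · exact (hM σ (hc σ ⟨a, hσ⟩ _ ⟨r, List.suffix_rfl⟩ (h.trans (h4 r)))).imp fun δ hδ =>
        hδ.mono (le_max_right _ _)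
  have h6 : ∀ a : ℕ, a * (1 / 2 : ℝ) ^ max N M ≤ tm (f a) := fun a => by
    induction a with
    | zero => simpa using (tm_mem _).1
    | succ a ih =>
      have h7 := h2 (a + 1)
      rw [hi, tm] at h7 ⊢
      rw [min_eq_right ((min_lt_iff.1 h7).resolve_left (lt_irrefl _)).le, Nat.cast_succ, add_mul,
        one_mul]
      exact add_le_add ih (pow_le_pow_of_le_one (by norm_num) (by norm_num) (h5 a))
  have h7 := (h6 (2 ^ max N M)).trans_lt (h2 _)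
  simp at h7

theorem exists_su {n : I → ℕ} (wf : WellFounded (Ch n)) : ∃ s : I → Ultrafilter I,
    (∀ h S, tm h < 1 → (∀ᶠ i in cofinite, S ∈ s ((n h, i) :: h)) → S ∈ s h) ∧
    (∀ h, ¬ tm h < 1 → s h = pure h) ∧
    (∀ (G : I → Set I) h, (∀ l, h <:+ l → G l ∈ s l) →
      {x | h <:+ x ∧ ∀ l, h <:+ l → l <:+ x → x ∈ G l} ∈ s h) ∧
    ∀ h x, h <:+ x → {y | meet x y = h ∧ meet y x = h} ∈ s h := by
  classical
  let F : ∀ h, (∀ e, Ch n e h → Ultrafilter I) → Ultrafilter I := fun h s =>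
    if hh : tm h < 1 then (hyperfilter ℕ).bind fun i => s _ ⟨hh, i, rfl⟩ else pure h
  obtain ⟨s, hs⟩ : ∃ s : I → Ultrafilter I, ∀ h, s h = F h fun e _ => s e :=
    ⟨wf.fix F, wf.fix_eq F⟩
  have h1 : ∀ h, tm h < 1 → s h = (hyperfilter ℕ).bind fun i => s ((n h, i) :: h) :=
    fun h hh => (hs h).trans (dif_pos hh)
  have h2 : ∀ h, ¬ tm h < 1 → s h = pure h := fun h hh => (hs h).trans (dif_neg hh)
  have h3 : ∀ h S, tm h < 1 → (∀ᶠ i in cofinite, S ∈ s ((n h, i) :: h)) → S ∈ s h :=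
    fun h S hh hS => h1 h hh ▸ mem_bind.2 (hyperfilter_le_cofinite hS)
  have h4 : ∀ (G : I → Set I) h, (∀ l, h <:+ l → G l ∈ s l) →
      {x | h <:+ x ∧ ∀ l, h <:+ l → l <:+ x → x ∈ G l} ∈ s h := fun G h => by
    induction h using wf.induction with
    | _ h ih =>
      intro hG
      by_cases hh : tm h < 1
      · refine mem_of_superset (inter_mem (hG h List.suffix_rfl) (h3 h {x | ∃ g, g :: h <:+ x ∧
          ∀ l, g :: h <:+ l → l <:+ x → x ∈ G l} hh (.of_forall fun i => mem_of_superset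
            (ih _ ⟨hh, i, rfl⟩ fun l hl => hG l ((List.suffix_cons _ _).trans hl))
            fun x hx => ⟨_, hx⟩))) fun x ⟨hx, g, hg, hg'⟩ => ⟨(List.suffix_cons _ _).trans hg,
          fun l hl hl' => ?_⟩
        rcases suf_step hl hl' hg with rfl | h5
        exacts [hx, hg' l h5 hl']
      · have := hG h List.suffix_rfl
        rw [h2 h hh] at this ⊢
        exact ⟨List.suffix_rfl, fun l hl hl' => suf_eq hl' List.suffix_rfl
          (hl'.length_le.antisymm hl.length_le) ▸ this⟩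
  refine ⟨s, h3, h2, h4, fun h x hx => ?_⟩
  by_cases hh : tm h < 1
  · refine h3 h _ hh (mem_of_superset (((fin_suf x).preimage (f := fun i => (n h, i) :: h)
      fun _ _ _ _ h => by simpa using h).compl_mem_cofinite) fun i hi => ?_)
    refine mem_of_superset (h4 (fun _ => univ) _ fun _ _ => univ_mem) fun y ⟨hy, _⟩ => ?_
    have h5 : ∀ g, g :: h <:+ x → ¬ g :: h <:+ y := fun g h6 h7 =>
      hi (show (n h, i) :: h <:+ x from suf_eq hy h7 rfl ▸ h6)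
    have h6 := (List.suffix_cons _ _).trans hy
    exact ⟨meet_eq hx h6 h5, meet_eq h6 hx fun g h7 h8 => h5 g h8 h7⟩
  · rw [h2 h hh]
    have h5 : ∀ g, ¬ g :: h <:+ h := fun g h6 => by simpa using h6.length_le
    exact ⟨meet_eq hx List.suffix_rfl fun g _ => h5 g,
      meet_eq List.suffix_rfl hx fun g h6 _ => h5 g h6⟩

theorem star {C : Type} {χ : I × I → C} {ok : C → C → Prop} {s : I → Ultrafilter I} {c : I → C}
    (hG : ∀ (G : I → Set I) h, (∀ l, h <:+ l → G l ∈ s l) →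
      {x | h <:+ x ∧ ∀ l, h <:+ l → l <:+ x → x ∈ G l} ∈ s h)
    (hM : ∀ h x, h <:+ x → {y | meet x y = h ∧ meet y x = h} ∈ s h)
    (hc : ∀ h, {x | {y | χ (x, y) = c h} ∈ s h} ∈ s h) {e : I} {k : K} {δ : ℝ}
    (hb : ¬ Bad γ (fun z z' => ok (χ z) (χ z')) e k δ) :
    {x | ∀ a b, e <:+ a → a <:+ b → b <:+ x → dist (γ (tm a)) k < δ → dist (γ (tm b)) k < δ →
      ok (c a) (c b) ∧ ok (c b) (c a)} ∈ s e := by
  have sel : ∀ (D : I → Set I) h, {x | ∃ l, h <:+ l ∧ l <:+ x ∧ x ∈ D l} ∈ s h →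
      ∃ l, h <:+ l ∧ D l ∈ s l := fun D h hD => by
    by_contra! hcon
    obtain ⟨x, ⟨l, h1, h2, h3⟩, -, h4⟩ := (s h).nonempty_of_mem (inter_mem hD (hG
      (fun l => (D l)ᶜ) h fun l hl => Ultrafilter.compl_mem_iff_notMem.2 (hcon l hl)))
    exact h4 l h1 h2 h3
  have cone : ∀ h, {x | h <:+ x} ∈ s h := fun h =>
    mem_of_superset (hG (fun _ => univ) h fun _ _ => univ_mem) fun _ hx => hx.1
  by_contra hn
  obtain ⟨a, hea, ha⟩ := sel (fun a => {x | dist (γ (tm a)) k < δ ∧ ∃ b, a <:+ b ∧ b <:+ x ∧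
      dist (γ (tm b)) k < δ ∧ ¬ (ok (c a) (c b) ∧ ok (c b) (c a))}) e (mem_of_superset
    (Ultrafilter.compl_mem_iff_notMem.2 hn) fun x hx => by
      simp only [mem_compl_iff, mem_ofPred_eq, not_forall] at hx
      obtain ⟨a, b, h1, h2, h3, h4, h5, h6⟩ := hx
      exact ⟨a, h1, h2.trans h3, h4, b, h2, h3, h5, h6⟩)
  have step : ∀ P ∈ s a, ∃ x ∈ P, ∃ y ∈ P, dist (fm γ (x, y)) k < δ ∧
      ¬ (ok (c a) (χ (x, y)) ∧ ok (χ (x, y)) (c a)) := fun P hP => by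
    obtain ⟨b, -, hb⟩ := sel (fun b => {x | x ∈ P ∧ dist (γ (tm b)) k < δ ∧
      ¬ (ok (c a) (c b) ∧ ok (c b) (c a))}) a (mem_of_superset (inter_mem hP ha)
        fun x ⟨h1, _, b, h2, h3, h4⟩ => ⟨b, h2, h3, h1, h4⟩)
    obtain ⟨x, ⟨h1, h2⟩, h3⟩ := (s b).nonempty_of_mem (inter_mem (inter_mem hb (hc b)) (cone b))
    obtain ⟨y, ⟨h4, h5⟩, h6, -⟩ := (s b).nonempty_of_mem (inter_mem (inter_mem hb h2) (hM b x h3))
    exact ⟨x, h1.1, y, h4.1, by rw [fm, h6]; exact h1.2.1, by rw [h5]; exact h1.2.2⟩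
  obtain ⟨z, h1, h2⟩ := exists_seq_of_forall_finset_exists (fun z : I × I => a <:+ z.1 ∧
    a <:+ z.2 ∧ {y | χ (z.1, y) = c a} ∈ s a ∧ dist (fm γ z) k < δ ∧
      ¬ (ok (c a) (χ z) ∧ ok (χ z) (c a)))
    (fun z w => χ (z.1, w.2) = c a ∧ meet z.1 w.2 = a ∧ meet w.1 z.2 = a) fun t ht => by
      obtain ⟨x, ⟨⟨h1, h2⟩, h3⟩, y, ⟨⟨h4, -⟩, h5⟩, h6⟩ := step _ (inter_mem (inter_mem (cone a)
        (hc a)) ((biInter_finset_mem t).2 fun z hz => inter_mem (ht z hz).2.2.1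
          (inter_mem (hM a _ (ht z hz).1) (hM a _ (ht z hz).2.1))))
      exact ⟨(x, y), ⟨h1, h4, h2, h6⟩, fun z hz => ⟨(mem_iInter₂.1 h5 z hz).1,
        (mem_iInter₂.1 h5 z hz).2.1.1, (mem_iInter₂.1 h3 z hz).2.2.2⟩⟩
  obtain ⟨_, h3, -⟩ := (s a).nonempty_of_mem ha
  refine hb ⟨fun i => (z i).1, fun i => (z i).2, fun i => hea.trans (h1 i).1,
    fun i => hea.trans (h1 i).2.1, fun i j => ?_, fun i j hij h => (h1 i).2.2.2.2 ?_⟩
  · rcases lt_trichotomy i j with h | rfl | h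
    exacts [by rw [fm, (h2 i j h).2.1]; exact h3, (h1 i).2.2.2.1,
      by rw [fm, (h2 j i h).2.2]; exact h3]
  · simp only [(h2 i j hij).1] at h
    exact h.symm

theorem exists_edge {x : I} (hx : x ≠ []) {t : ℝ} (h0 : 0 ≤ t) (ht : t ≤ tm x) :
    ∃ g h, g :: h <:+ x ∧ t ∈ Icc (tm h) (tm (g :: h)) := by
  induction x with
  | nil => exact absurd rfl hx
  | cons g h ih =>
    rcases le_total (tm h) t with h1 | h1
    · exact ⟨g, h, List.suffix_rfl, h1, ht⟩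
    · rcases eq_or_ne h [] with rfl | h2
      · exact ⟨g, [], List.suffix_rfl, h0, ht⟩
      · obtain ⟨g', h', h3, h4⟩ := ih h2 h1
        exact ⟨g', h', h3.trans (List.suffix_cons _ _), h4⟩

theorem core (hγ : Continuous γ) {C : Type} [Finite C] {χ : I × I → C} {ok : C → C → Prop}
    (hR : ¬ Killable γ fun z z' => ok (χ z) (χ z')) {η : ℝ} (hη : 0 < η) :
    ∃ (J : Set I) (L : I → Set K) (z : I → I × I), J.Finite ∧ (∀ h, IsCompact (L h)) ∧
      (∀ t ∈ Icc (0 : ℝ) 1, ∃ h ∈ J, γ t ∈ L h) ∧ (∀ h ∈ J, ∀ k ∈ L h, dist k (fm γ (z h)) < η) ∧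
      ∀ k, ∃ h₀, ∀ a ∈ J, ∀ b ∈ J, a ≠ h₀ → b ≠ h₀ → k ∈ L a → k ∈ L b →
        ok (χ (z a)) (χ (z b)) := by
  obtain ⟨n, hn, hmono, wf⟩ := exists_tree hγ hR hη
  choose δ hδ using fun h => hn h h List.suffix_rfl
  obtain ⟨s, h1, h2, hG, hM⟩ := exists_su wf
  have hc : ∀ h, ∃ c, {x | {y | χ (x, y) = c} ∈ s h} ∈ s h := fun h => by
    obtain ⟨c, hc⟩ := ((s h).bind fun x => (s h).map fun y => χ (x, y)).eq_pure_of_finite
    exact ⟨c, mem_bm.1 (hc ▸ rfl : {c} ∈ _)⟩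
  choose c hc using hc
  have cone : ∀ h, {x | h <:+ x} ∈ s h := fun h =>
    mem_of_superset (hG (fun _ => univ) h fun _ _ => univ_mem) fun _ hx => hx.1
  have hz : ∀ h, ∃ z : I × I, meet z.1 z.2 = h ∧ χ z = c h := fun h => by
    obtain ⟨x, h3, h4⟩ := (s h).nonempty_of_mem (inter_mem (hc h) (cone h))
    obtain ⟨y, h5, h6, -⟩ := (s h).nonempty_of_mem (inter_mem h3 (hM h x h4))
    exact ⟨(x, y), h6, h5⟩
  choose z hz hz' using hz
  obtain ⟨x, -, hx⟩ := (s []).nonempty_of_mem (hG (fun h => {x | (¬ tm h < 1 ∧ x = h) ∨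
      ∃ i, (n h, i) :: h <:+ x ∧ ∀ a b, (n h, i) :: h <:+ a → a <:+ b → b <:+ x →
        dist (γ (tm a)) (γ (tm h)) < δ h → dist (γ (tm b)) (γ (tm h)) < δ h →
        ok (c a) (c b) ∧ ok (c b) (c a)}) [] fun h _ => by
    by_cases hh : tm h < 1
    · refine h1 h _ hh (mem_of_superset (((hδ h).2.1.preimage (f := fun i => (n h, i))
        fun _ _ _ _ h => by simpa using h).compl_mem_cofinite) fun i hi => ?_)
      exact mem_of_superset (inter_mem (cone _) (star hG hM hc hi)) fun x hx => Or.inr ⟨i, hx⟩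
    · rw [h2 h hh]
      exact Or.inl ⟨hh, rfl⟩)
  replace hx := fun h => hx h List.nil_suffix
  have h3 : 1 ≤ tm x := (hx x List.suffix_rfl).elim (fun h => not_lt.1 h.1) fun ⟨i, h, _⟩ => by
    simpa using h.length_le
  have h4 : ∀ g h, g :: h <:+ x → ∃ i, (n h, i) :: h <:+ x ∧ _ := fun g h hg =>
    (hx h ((List.suffix_cons _ _).trans hg)).resolve_left fun h5 => by
      simpa [h5.2] using hg.length_le
  have h5 : ∀ h₀ h, h₀ <:+ h → ∀ k ∈ γ '' Icc (tm h) (tm ((n h, 0) :: h)),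
      dist k (γ (tm h)) < δ h₀ / 2 := by
    rintro h₀ h hh _ ⟨t, ⟨h5, h6⟩, rfl⟩
    refine ((hδ h₀).mono (hmono _ _ hh)).2.2 t ⟨(tm_mem h).1.trans h5, h6.trans (tm_mem _).2⟩ _
      (tm_mem h) ?_
    rw [abs_of_nonneg (sub_nonneg.2 h5), sub_le_iff_le_add']
    exact h6.trans (min_le_right _ _)
  refine ⟨{h | ∃ g, g :: h <:+ x}, fun h => γ '' Icc (tm h) (tm ((n h, 0) :: h)), z,
    (fin_suf x).subset fun h ⟨g, hg⟩ => (List.suffix_cons _ _).trans hg,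
    fun h => isCompact_Icc.image hγ, fun t ht => ?_, fun h _ k hk => ?_, fun k => ?_⟩
  · obtain ⟨g, h, h6, h7⟩ := exists_edge (x := x) (fun h => by norm_num [h, tm] at h3) ht.1
      (ht.2.trans h3)
    obtain ⟨i, h8, -⟩ := h4 g h h6
    obtain rfl : g = (n h, i) := List.head_eq_of_cons_eq (suf_eq h6 h8 rfl)
    exact ⟨h, ⟨_, h6⟩, t, h7, rfl⟩
  · have h6 := h5 h h List.suffix_rfl k hk
    have h7 := (hδ h).1
    have h8 := dist_nonneg.trans_lt h6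
    rw [fm, hz]
    linarith
  by_cases hk : {h | (∃ g, g :: h <:+ x) ∧ k ∈ γ '' Icc (tm h) (tm ((n h, 0) :: h))}.Nonempty
  swap
  · exact ⟨[], fun a ha _ _ _ _ h => absurd ⟨a, ha, h⟩ hk⟩
  obtain ⟨h₀, ⟨⟨g, hg⟩, h6⟩, h7⟩ := exists_min_image _ List.length ((fin_suf x).subset
    fun h hh => (List.suffix_cons _ _).trans hh.1.choose_spec) hk
  obtain ⟨i, h8, h9⟩ := h4 g h₀ hg
  have h10 : ∀ a, (∃ g, g :: a <:+ x) → a ≠ h₀ → k ∈ γ '' Icc (tm a) (tm ((n a, 0) :: a)) →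
      a <:+ x ∧ (n h₀, i) :: h₀ <:+ a ∧ dist (γ (tm a)) (γ (tm h₀)) < δ h₀ := by
    rintro a ⟨g', hg'⟩ ha hka
    have h11 := (List.suffix_cons _ _).trans hg'
    have h12 := List.suffix_of_suffix_length_le ((List.suffix_cons _ _).trans hg) h11
      (h7 a ⟨⟨g', hg'⟩, hka⟩)
    exact ⟨h11, (suf_step h12 h11 h8).resolve_left ha, (dist_triangle_left _ _ k).trans_lt
      ((add_lt_add (h5 _ _ h12 k hka) (h5 _ _ List.suffix_rfl k h6)).trans_eq (add_halves _))⟩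
  refine ⟨h₀, fun a ha b hb ha' hb' hka hkb => ?_⟩
  obtain ⟨a1, a2, a3⟩ := h10 a ha ha' hka
  obtain ⟨b1, b2, b3⟩ := h10 b hb hb' hkb
  rw [hz', hz']
  rcases List.suffix_or_suffix_of_suffix a1 b1 with h | h
  exacts [(h9 a b a2 h b1 a3 b3).1, (h9 b a b2 h a1 b3 a3).2]

end Pool.Agent.P.MP_bf7e1e_gt.Sq
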