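import Pool.Agent.P.MP_bf7e1e_gt.Sq2
import Pool.Agent.P.MP_0c5457_lc.Fix

/-! A countably compact strongly zero-dimensional space with infinite-dimensional square. -/

namespace Pool.Agent.P.MP_bf7e1e_gt.Sq

open Set Filter Topology

theorem exists_col {Y : Type} [TopologicalSpace Y] {B : Set (Set Y)} (hB : B.Finite)
    (hc : ∀ V ∈ B, IsCozero V) (hu : ⋃₀ B = univ) :
    ∃ c : Y → B, ∀ y, ∀ᶠ w in 𝓝 y, y ∈ (c w).1 := by
  have := hB.to_subtype
  choose f hf hf' using fun V : B => hc V V.2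
  have h0 : ∀ y, ∃ V : B, y ∈ V.1 := fun y =>
    let ⟨V, h1, h2⟩ : y ∈ ⋃₀ B := hu ▸ mem_univ y
    ⟨⟨V, h1⟩, h2⟩
  have h1 : ∀ w, ∃ V : B, ∀ V' : B, |f V' w| ≤ |f V w| := fun w =>
    have : Nonempty B := ⟨(h0 w).choose⟩
    Finite.exists_max _
  choose c hc using h1
  refine ⟨c, fun y => ?_⟩
  obtain ⟨V, hV⟩ := h0 y
  have h2 : ∀ V' : B, ∀ᶠ w in 𝓝 y, y ∉ V'.1 → |f V' w| < |f V w| := fun V' => by
    by_cases h : y ∈ V'.1
    · exact .of_forall fun _ h' => absurd h h'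
    · refine ((hf V').abs.continuousAt.eventually_lt (hf V).abs.continuousAt ?_).mono
        fun _ h _ => h
      rw [hf'] at h hV
      simpa [not_not.1 h] using hV
  filter_upwards [eventually_all.2 h2] with w hw using by_contra fun h => (hw _ h).not_ge (hc w V)

theorem not_dimLE {K : Type} [MetricSpace K] [CompactSpace K] {γ : ℝ → K} (hγ : Continuous γ)
    (hs : ∀ k, ∃ t ∈ Icc (0 : ℝ) 1, γ t = k) {Y : Type} [TopologicalSpace Y] {F : Y → K}
    (hF : Continuous F) {j : I × I → Y} (hj : ∀ z, F (j z) = fm γ z)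
    (hloc : ∀ R, (∀ y, ∃ N ∈ 𝓝 y, ∀ z z', j z ∈ N → j z' ∈ N → R z z') → ¬ Killable γ R)
    {n : ℕ} {b : K → Fin (n + 3) → ℝ} (hb : Continuous b) (hb1 : ∀ k, ∑ i, b k i = 1)
    (kkm : ∀ G : Fin (n + 3) → Set K, (∀ i, IsClosed (G i)) → (∀ k, ∃ i, k ∈ G i) →
      (∀ i, ∀ k ∈ G i, 0 < b k i) → ∃ k, ∀ i, k ∈ G i) : ¬ DimLE Y n := fun hdim => by
  have h0 : (0 : ℝ) < 1 / (n + 4) := by positivity
  obtain ⟨B, hB, hc, hu, hr, ho⟩ := hdim (range fun i => {y | 1 / (n + 4) < b (F y) i})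
    (finite_range _) (by
      rintro _ ⟨i, rfl⟩
      exact ⟨fun y => max (b (F y) i - 1 / (n + 4)) 0, by fun_prop, by ext y; simp⟩)
    (eq_univ_of_forall fun y => by
      obtain ⟨i, -, hi⟩ := Finset.exists_lt_of_sum_lt (s := Finset.univ)
        (f := fun _ => (1 / (n + 4) : ℝ)) (g := b (F y)) (by
          rw [hb1]; simp; field_simp; linarith)
      exact ⟨_, ⟨i, rfl⟩, hi⟩)
  have := hB.to_subtype
  obtain ⟨c, hc'⟩ := exists_col hB hc hu
  have hι : ∀ V : B, ∃ i, ∀ y ∈ V.1, 1 / (n + 4) < b (F y) i := fun V =>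
    let ⟨_, ⟨i, h1⟩, h2⟩ := hr V V.2
    ⟨i, fun _ hy => (h1 ▸ h2 :) hy⟩
  choose ι hι using hι
  obtain ⟨η, hη, hη'⟩ := Metric.uniformContinuous_iff.1
    (CompactSpace.uniformContinuous_of_continuous hb) _ h0
  obtain ⟨J, L, z, hJ, hL, h1, h2, h3⟩ := core hγ (C := B × Set B)
    (χ := fun z => (c (j z), {V | j z ∈ V.1})) (ok := fun a b => a.1 ∈ b.2) (hloc _ fun y =>
      ⟨_, (hc' y).and (eventually_all.2 fun V : B => show ∀ᶠ w in 𝓝 y, y ∈ V.1 → w ∈ V.1 from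
        eventually_imp_distrib_left.2 fun h => (hc V V.2).isOpen.mem_nhds h),
        fun z z' hz hz' => hz'.2 _ hz.1⟩) hη
  obtain ⟨k, hk⟩ := kkm (fun i => ⋃ h ∈ {h ∈ J | ι (c (j (z h))) = i}, L h)
    (fun i => (hJ.subset (sep_subset _ _)).isClosed_biUnion fun h _ => (hL h).isClosed)
    (fun k => by
      obtain ⟨t, ht, rfl⟩ := hs k
      obtain ⟨h, h4, h5⟩ := h1 t ht
      exact ⟨_, mem_biUnion (show h ∈ {h' ∈ J | ι (c (j (z h'))) = ι (c (j (z h)))} from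
        ⟨h4, rfl⟩) h5⟩)
    (fun i k hk => by
      obtain ⟨h, ⟨h4, rfl⟩, h5⟩ := mem_iUnion₂.1 hk
      have h6 := hι _ _ (hc' (j (z h))).self_of_nhds
      have h7 := abs_lt.1 ((dist_le_pi_dist _ _ (ι (c (j (z h))))).trans_lt (hη' (h2 h h4 k h5)))
      rw [hj] at h6
      linarith [h7.1])
  choose h h4 h5 using fun i => mem_iUnion₂.1 (hk i)
  obtain ⟨h₀, h6⟩ := h3 k
  obtain ⟨i₀, h7⟩ : ∃ i₀, ∀ i, i ≠ i₀ → h i ≠ h₀ := by
    by_contra! hcon
    obtain ⟨i, -, h7⟩ := hcon 0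
    obtain ⟨i', h8, h9⟩ := hcon i
    exact h8 (by rw [← (h4 i).2, ← (h4 i').2, h7, h9])
  have h8 := ncard_le_ncard_of_injOn (s := univ) (t := {V ∈ B | j (z (h (i₀.succAbove 0))) ∈ V})
    (fun i => (c (j (z (h (i₀.succAbove i))))).1) (fun i _ => ⟨(c _).2, h6 _ (h4 _).1 _ (h4 _).1
      (h7 _ (i₀.succAbove_ne i)) (h7 _ (i₀.succAbove_ne 0)) (h5 _) (h5 _)⟩)
    (fun i _ i' _ h8 => Fin.succAbove_right_injective (p := i₀)
      (by rw [← (h4 (i₀.succAbove i)).2, Subtype.ext h8, (h4 _).2])) (hB.subset (sep_subset _ _))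
  have h9 := ho (j (z (h (i₀.succAbove 0))))
  rw [ncard_univ, Nat.card_fin] at h8
  omega

theorem exists_X {K : Type} [MetricSpace K] {γ : ℝ → K} (hγ : Continuous γ) :
    ∃ X : Bool → Set (Ultrafilter I), (∀ b x, pure x ∈ X b) ∧
      (∀ b (s : ℕ → Ultrafilter I), (∀ n, s n ∈ X b) →
        ∃ u : Ultrafilter ℕ, ↑u ≤ (cofinite : Filter ℕ) ∧ u.bind s ∈ X b) ∧
      (∀ p ∈ X false, ∀ q ∈ X true, ∃ c, Tendsto (fm γ) ((p : Filter I) ×ˢ (q : Filter I)) (𝓝 c)) ∧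
      ∀ R, Killable γ R → ∃ p ∈ X false, ∃ q ∈ X true,
        ∀ P ∈ p, ∀ Q ∈ q, ∃ z ∈ P ×ˢ Q, ∃ z' ∈ P ×ˢ Q, ¬ R z z' := by
  let J := {R : I × I → I × I → Prop // Killable γ R}
  choose e he hk using fun j : J => j.2
  obtain ⟨A, c, hA, hc, hcA, hce, hA'⟩ := exists_ch (J := J)
    ((Cardinal.mk_subtype_le _).trans (by simp)) (fun j n => pure (e j n))
    fun j => Ultrafilter.pure_injective.comp (he j)
  have h1 : ∀ j : J, Kill γ j.1 (c j) := fun j => by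
    obtain ⟨u, hu⟩ := hce j
    rw [hu, show (u.1.bind fun n => pure (e j n)) = u.1.map (e j) from
      Ultrafilter.ext fun S => mem_bind]
    exact hk j u
  choose p q hp hq h1 h2 using h1
  refine ⟨fun b => {r | (∃ x, r = pure x) ∨ eps r ∈ A b ∨ ∃ j, r = cond b (q j) (p j) ∧
    eps r = c j}, fun b x => Or.inl ⟨x, rfl⟩, fun b => acc_mem hc (hA' b) fun _ => Iff.rfl,
    fun r hr r' hr' => ?_, fun R hR => ⟨p ⟨R, hR⟩, Or.inr (Or.inr ⟨_, rfl, hp _⟩), q ⟨R, hR⟩,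
      Or.inr (Or.inr ⟨_, rfl, hq _⟩), h2 ⟨R, hR⟩⟩⟩
  have h3 : Tc r r' → ∃ c, Tendsto (fm γ) ((r : Filter I) ×ˢ (r' : Filter I)) (𝓝 c) :=
    fun ⟨t, ht⟩ => ⟨γ t, (hγ.tendsto t).comp ht⟩
  by_cases h4 : eps r = eps r'
  swap
  · exact h3 (tc_of_ne h4)
  rcases hr with ⟨x, rfl⟩ | hr
  · exact h3 (tc_pure_left _ _)
  rcases hr' with ⟨x, rfl⟩ | hr'
  · exact h3 (tc_pure_right _ _)
  rcases hr with hr | ⟨j, rfl, hj⟩ <;> rcases hr' with hr' | ⟨j', rfl, hj'⟩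
  · exact absurd (h4 ▸ hr') (disjoint_left.1 hA hr)
  · exact absurd (hj' ▸ h4 ▸ hr) (hcA _ j')
  · exact absurd (hj ▸ h4 ▸ hr') (hcA _ j)
  · obtain rfl := hc (hj.symm.trans (h4.trans hj'))
    exact h1 j

theorem exists_peano : ∃ γ : ℝ → ℕ → unitInterval, Continuous γ ∧
    ∀ k, ∃ t ∈ Icc (0 : ℝ) 1, γ t = k := by
  obtain ⟨g, hg⟩ := ContinuousMap.exists_restrict_eq (Y := ℕ → ℝ) isClosed_cantorSet
    ⟨fun t n => cantorToHilbert (cantorSetHomeomorphNatToBool t) n, continuous_pi fun n =>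
      continuous_subtype_val.comp ((continuous_apply n).comp
        (cantorToHilbert_continuous.comp cantorSetHomeomorphNatToBool.continuous))⟩
  refine ⟨fun t n => projIcc 0 1 zero_le_one (g t n), continuous_pi fun n =>
    continuous_projIcc.comp ((continuous_apply n).comp g.continuous), fun k => ?_⟩
  obtain ⟨t, rfl⟩ := (cantorToHilbert_surjective.comp cantorSetHomeomorphNatToBool.surjective) k
  refine ⟨t, cantorSet_subset_unitInterval t.2, funext fun n => ?_⟩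
  simp only [show g t = _ from DFunLike.congr_fun hg t]
  exact projIcc_val _ _

/-- Barycentric coordinates on the Hilbert cube. -/
noncomputable def bc (m : ℕ) (k : ℕ → unitInterval) (i : Fin (m + 1)) : ℝ :=
  k i + (1 - ∑ j : Fin (m + 1), (k j : ℝ)) / (m + 1)

theorem kkm (m : ℕ) (G : Fin (m + 1) → Set (ℕ → unitInterval)) (h1 : ∀ i, IsClosed (G i))
    (h2 : ∀ k, ∃ i, k ∈ G i) (h3 : ∀ i, ∀ k ∈ G i, 0 < bc m k i) : ∃ k, ∀ i, k ∈ G i := by
  let ι : (Fin (m + 1) → ℝ) → ℕ → unitInterval := fun x n =>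
    projIcc 0 1 zero_le_one (x (Fin.ofNat _ n))
  have hι : Continuous ι := continuous_pi fun n => continuous_projIcc.comp (continuous_apply _)
  have h4 : ∀ x ∈ stdSimplex ℝ (Fin (m + 1)), ∃ i, ι x ∈ G i ∧ 0 < x i := fun x hx => by
    have h5 : ∀ i : Fin (m + 1), (ι x i : ℝ) = x i := fun i => by
      simp only [ι, Fin.ofNat_val_eq_self, projIcc_of_mem _ (mem_Icc_of_mem_stdSimplex hx i)]
    obtain ⟨i, hi⟩ := h2 (ι x)
    exact ⟨i, hi, by simpa [bc, h5, hx.2] using h3 i _ hi⟩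
  have h5 : ∀ i, (ι ⁻¹' G i).Nonempty := fun i => by
    obtain ⟨i', h5, h6⟩ := h4 _ (single_mem_stdSimplex ℝ i)
    obtain rfl : i' = i := by_contra fun h => by simp [h] at h6
    exact ⟨_, h5⟩
  obtain ⟨x, hx, h6⟩ := MP_0c5457_lc.exists_argmax (fun x i => Metric.infDist x (ι ⁻¹' G i))
    (continuous_pi fun i => Metric.continuous_infDist_pt _).continuousOn
  obtain ⟨i, h7, h8⟩ := h4 x hx
  refine ⟨ι x, fun k => (((h1 k).preimage hι).mem_iff_infDist_zero (h5 k)).2 ?_⟩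
  exact ((h6 i k h8).trans_eq (Metric.infDist_zero_of_mem h7)).antisymm Metric.infDist_nonneg

theorem tendsto_ultra {α : Type} {f : Filter α} {s : α → Ultrafilter I} {p : Ultrafilter I}
    (h : ∀ P ∈ p, ∀ᶠ a in f, P ∈ s a) : Tendsto s f (𝓝 p) := by
  refine TopologicalSpace.tendsto_nhds_generateFrom_iff.2 ?_
  rintro _ ⟨P, rfl⟩ hP
  exact h P hP

/-- The disjoint union of two spaces of ultrafilters. -/
abbrev Zs (X : Bool → Set (Ultrafilter I)) : Type := {z : Bool × Ultrafilter I // z.2 ∈ X z.1}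

variable {X : Bool → Set (Ultrafilter I)}

theorem nhds_Zs (z : Zs X) {P : Set I} (hP : P ∈ z.1.2) :
    ∀ᶠ w : Zs X in 𝓝 z, w.1.1 = z.1.1 ∧ P ∈ w.1.2 :=
  (((isOpen_discrete {z.1.1}).prod (ultrafilter_isOpen_basic P)).preimage
    continuous_subtype_val).mem_nhds ⟨rfl, hP⟩

theorem tendsto_Zs (h : ∀ b x, pure x ∈ X b) (z : Zs X) :
    Tendsto (fun x => (⟨(z.1.1, pure x), h _ x⟩ : Zs X)) z.1.2 (𝓝 z) :=
  tendsto_subtype_rng.2 (tendsto_const_nhds.prodMk_nhds z.1.2.tendsto_pure_self)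

theorem cc_Zs (h : ∀ b (s : ℕ → Ultrafilter I), (∀ n, s n ∈ X b) →
    ∃ u : Ultrafilter ℕ, ↑u ≤ (cofinite : Filter ℕ) ∧ u.bind s ∈ X b) :
    CountablyCompactSpace (Zs X) := by
  refine ⟨.of_seq_clusterPt fun s _ => ?_⟩
  obtain ⟨b, hb⟩ := Finite.exists_infinite_fiber fun n => (s n).1.1
  let φ := Set.Infinite.natEmbedding _ (infinite_coe_iff.1 hb)
  have h1 : ∀ n, (s (φ n)).1.1 = b := fun n => (φ n).2
  obtain ⟨u, hu, hu'⟩ := h b (fun n => (s (φ n)).1.2) fun n =>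
    (congrArg (fun b => (s (φ n)).1.2 ∈ X b) (h1 n)).mp (s (φ n)).2
  refine ⟨⟨(b, _), hu'⟩, trivial, MapClusterPt.of_comp (φ := fun n => φ n) (p := u)
    (Nat.cofinite_eq_atTop ▸ map_cof hu (Subtype.val_injective.comp φ.injective))
    (Tendsto.mapClusterPt (tendsto_subtype_rng.2 (Tendsto.prodMk_nhds ?_ ?_)))⟩
  exacts [tendsto_const_nhds.congr fun n => (h1 n).symm, tendsto_ultra fun P hP => mem_bind.1 hP]

theorem dim_Zs (h : ∀ b x, pure x ∈ X b) : DimLE (Zs X) 0 := fun A hA hc hu => by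
  have := hA.to_subtype
  obtain ⟨c, hc'⟩ := exists_col hA hc hu
  have h1 : ∀ z : Zs X, ∃ U, {x | c ⟨(z.1.1, pure x), h _ x⟩ = U} ∈ z.1.2 := fun z => by
    obtain ⟨U, hU⟩ := (z.1.2.map fun x => c ⟨(z.1.1, pure x), h _ x⟩).eq_pure_of_finite
    exact ⟨U, Ultrafilter.mem_map.1 (hU ▸ rfl : {U} ∈ _)⟩
  choose d hd using h1
  have h2 : IsLocallyConstant d := (IsLocallyConstant.iff_eventually_eq d).2 fun z =>
    (nhds_Zs z (hd z)).mono fun w hw => by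
      obtain ⟨x, h2, h3⟩ := w.1.2.nonempty_of_mem (inter_mem (hd w) hw.2)
      rw [← show _ = d w from h2, ← show _ = d z from h3]
      simp only [hw.1]
  refine ⟨range fun U => {z | d z = U}, finite_range _, ?_, eq_univ_of_forall fun z =>
    ⟨_, ⟨d z, rfl⟩, rfl⟩, ?_, fun z => ?_⟩
  · rintro _ ⟨U, rfl⟩
    exact isCozero_of_isClopen (h2.isClopen_fiber U)
  · rintro _ ⟨U, rfl⟩
    refine ⟨U, U.2, fun z (hz : d z = U) => ?_⟩
    obtain ⟨x, h2, h3⟩ := z.1.2.nonempty_of_mem (inter_mem (hd z) (tendsto_Zs h z (hc' z)))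
    rw [← hz, ← show _ = d z from h2]
    exact h3
  · have : {V ∈ range fun U => {z | d z = U} | z ∈ V} ⊆ {{w | d w = d z}} := by
      rintro _ ⟨⟨U, rfl⟩, rfl⟩
      rfl
    simpa using ncard_le_ncard this

theorem exists_F {K : Type} [MetricSpace K] {f : I × I → K} (h : ∀ b x, pure x ∈ X b)
    (hf : ∀ p ∈ X false, ∀ q ∈ X true, ∃ c, Tendsto f ((p : Filter I) ×ˢ (q : Filter I)) (𝓝 c)) :
    ∃ F : Zs X × Zs X → K, Continuous F ∧
      ∀ x y, F (⟨(false, pure x), h _ x⟩, ⟨(true, pure y), h _ y⟩) = f (x, y) := by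
  let r : Bool → Zs X → Ultrafilter I := fun b z => if z.1.1 = b then z.1.2 else pure []
  have h1 : ∀ b z, r b z ∈ X b := fun b z => by
    simp only [r]
    split_ifs with h1
    exacts [h1 ▸ z.2, h _ _]
  have h2 : ∀ b z, ∀ P ∈ r b z, ∀ᶠ w in 𝓝 z, P ∈ r b w := fun b z P hP => by
    by_cases h2 : z.1.1 = b
    · rw [show r b z = z.1.2 from if_pos h2] at hP
      exact (nhds_Zs z hP).mono fun w hw => by simpa only [r, hw.1, h2, if_true] using hw.2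
    · exact (nhds_Zs z univ_mem).mono fun w hw => by simpa only [r, hw.1, h2, if_false] using hP
  choose F hF using fun z : Zs X × Zs X => hf _ (h1 false z.1) _ (h1 true z.2)
  refine ⟨F, continuous_iff_continuousAt.2 fun z => (closed_nhds_basis _).tendsto_right_iff.2
    fun N hN => ?_, fun x y => tendsto_nhds_unique (hF _) ?_⟩
  · obtain ⟨P, hP, Q, hQ, h3⟩ := mem_prod_iff.1 (hF z hN.1)
    filter_upwards [(h2 _ _ P hP).prod_nhds (h2 _ _ Q hQ)] with w hw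
    exact hN.2.mem_of_tendsto (hF w) (mem_of_superset (prod_mem_prod hw.1 hw.2) h3)
  · simpa [r] using tendsto_pure_nhds f (x, y)

theorem main : ∃ (Z : Type) (_ : TopologicalSpace Z), T35Space Z ∧ CountablyCompactSpace Z ∧
    TopologicalSpace.SeparableSpace Z ∧ covDim Z = 0 ∧ covDim (Z × Z) = ⊤ := by
  let := TopologicalSpace.metrizableSpaceMetric (ℕ → unitInterval)
  obtain ⟨γ, hγ, hs⟩ := exists_peano
  obtain ⟨X, h1, h2, h3, h4⟩ := exists_X hγ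
  obtain ⟨F, hF, hF'⟩ := exists_F h1 h3
  have : Nonempty (Zs X) := ⟨⟨(false, pure []), h1 _ _⟩⟩
  refine ⟨Zs X, inferInstance, inferInstance, cc_Zs h2, ⟨range fun z : Bool × I =>
    ⟨(z.1, pure z.2), h1 _ _⟩, countable_range _, fun z => mem_closure_of_tendsto
      (tendsto_Zs h1 z) (.of_forall fun x => ⟨(_, x), rfl⟩)⟩, covDim_eq_zero (dim_Zs h1),
    sInf_eq_top.2 ?_⟩
  rintro _ ⟨n, -, hn, rfl⟩
  refine absurd (hn.mono (Int.self_le_toNat n)) (not_dimLE hγ hs hF (fun z => hF' z.1 z.2)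
    (fun R hR hk => ?_) (b := bc _) (by unfold bc; fun_prop) (fun k => ?_) (kkm _))
  · obtain ⟨p, hp, q, hq, h5⟩ := h4 R hk
    obtain ⟨N, hN, hN'⟩ := hR (⟨(false, p), hp⟩, ⟨(true, q), hq⟩)
    rw [nhds_prod_eq] at hN
    obtain ⟨P, hP, Q, hQ, h6⟩ := mem_prod_iff.1 (mem_map.1
      (((tendsto_Zs h1 ⟨(false, p), hp⟩).prodMap (tendsto_Zs h1 ⟨(true, q), hq⟩)) hN))
    obtain ⟨z, hz, z', hz', h7⟩ := h5 P hP Q hQ
    exact h7 (hN' z z' (h6 hz) (h6 hz'))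
  · simp only [bc, Finset.sum_add_distrib, Finset.sum_const, Finset.card_univ, Fintype.card_fin,
      nsmul_eq_mul]
    push_cast
    field_simp
    ring

end Pool.Agent.P.MP_bf7e1e_gt.Sq
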